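import Mathlib

set_option autoImplicit false

namespace H355R3

/-- A *formation* of finite groups: a nonempty class of finite groups, closed under isomorphism,
such that every quotient of a group in the class lies in the class, and such that
`G ⧸ N₁` and `G ⧸ N₂` in the class imply `G ⧸ (N₁ ⊓ N₂)` in the class. -/
@[ext]
structure Formation where
  /-- membership of a finite group in the class -/
  Mem : (G : Type) → [Group G] → [Finite G] → Prop
  exists_mem : ∃ (G : Type) (_ : Group G) (_ : Finite G), Mem G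
  iso : ∀ {G H : Type} [Group G] [Finite G] [Group H] [Finite H], (G ≃* H) → Mem G → Mem H
  quot : ∀ {G : Type} [Group G] [Finite G] (N : Subgroup G) [N.Normal], Mem G → Mem (G ⧸ N)
  inf : ∀ {G : Type} [Group G] [Finite G] (N₁ N₂ : Subgroup G) [N₁.Normal] [N₂.Normal],
    Mem (G ⧸ N₁) → Mem (G ⧸ N₂) → Mem (G ⧸ (N₁ ⊓ N₂))

namespace Formation

variable (F : Formation)

theorem mem_of_surjective {G H : Type} [Group G] [Finite G] [Group H] [Finite H] (f : G →* H)
    (hf : Function.Surjective f) (hG : F.Mem G) : F.Mem H :=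
  F.iso (QuotientGroup.quotientKerEquivOfSurjective f hf) (F.quot f.ker hG)

theorem mem_quot_ker {G H : Type} [Group G] [Finite G] [Group H] [Finite H] (f : G →* H)
    (hf : Function.Surjective f) (hH : F.Mem H) : F.Mem (G ⧸ f.ker) :=
  F.iso (QuotientGroup.quotientKerEquivOfSurjective f hf).symm hH

theorem mem_of_subsingleton {G : Type} [Group G] [Finite G] [Subsingleton G] : F.Mem G := by
  obtain ⟨X, hX, hX', h⟩ := F.exists_mem
  exact F.mem_of_surjective (1 : X →* G) (fun g => ⟨1, Subsingleton.elim _ _⟩) h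

/-- `G ⧸ N` lies in the formation -/
def Q {G : Type} [Group G] [Finite G] (N : Subgroup G) : Prop := ∃ _ : N.Normal, F.Mem (G ⧸ N)

theorem Q_top {G : Type} [Group G] [Finite G] : F.Q (⊤ : Subgroup G) := by
  refine ⟨inferInstance, ?_⟩
  have : Subsingleton (G ⧸ (⊤ : Subgroup G)) := QuotientGroup.subsingleton_quotient_top
  exact F.mem_of_subsingleton

theorem Q_inf {G : Type} [Group G] [Finite G] {N M : Subgroup G} (hN : F.Q N) (hM : F.Q M) :
    F.Q (N ⊓ M) := by
  obtain ⟨h1, h2⟩ := hN
  obtain ⟨h3, h4⟩ := hM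
  exact ⟨inferInstance, F.inf N M h2 h4⟩

theorem Q_sInf {G : Type} [Group G] [Finite G] {S : Set (Subgroup G)} (hS : ∀ N ∈ S, F.Q N) :
    F.Q (sInf S) := by
  have hfin : S.Finite := Set.toFinite S
  induction S, hfin using Set.Finite.induction_on with
  | empty => rw [sInf_empty]; exact F.Q_top
  | insert _ _ ih =>
    rw [sInf_insert]
    exact F.Q_inf (hS _ (Set.mem_insert _ _)) (ih fun N hN => hS N (Set.mem_insert_of_mem _ hN))

theorem Q_ker_iff {G H : Type} [Group G] [Finite G] [Group H] [Finite H] (f : G →* H)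
    (hf : Function.Surjective f) : F.Q f.ker ↔ F.Mem H := by
  constructor
  · rintro ⟨_, h⟩
    exact F.iso (QuotientGroup.quotientKerEquivOfSurjective f hf) h
  · intro h
    exact ⟨inferInstance, F.mem_quot_ker f hf h⟩

theorem Q_bot_iff {G : Type} [Group G] [Finite G] : F.Q (⊥ : Subgroup G) ↔ F.Mem G := by
  have h := F.Q_ker_iff (MonoidHom.id G) Function.surjective_id
  rwa [MonoidHom.ker_id] at h

/-- The residual `G^F`: the intersection of all normal subgroups `N` of `G` with `G ⧸ N` in `F`. -/
def residual (G : Type) [Group G] [Finite G] : Subgroup G :=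
  sInf {N : Subgroup G | ∃ _ : N.Normal, F.Mem (G ⧸ N)}

theorem Q_residual (G : Type) [Group G] [Finite G] : F.Q (F.residual G) :=
  F.Q_sInf fun _ h => h

instance residual_normal (G : Type) [Group G] [Finite G] : (F.residual G).Normal :=
  (F.Q_residual G).1

theorem mem_quot_residual (G : Type) [Group G] [Finite G] : F.Mem (G ⧸ F.residual G) :=
  (F.Q_residual G).2

theorem residual_le {G : Type} [Group G] [Finite G] {N : Subgroup G} (h : F.Q N) :
    F.residual G ≤ N := sInf_le h

theorem Q_of_le {G : Type} [Group G] [Finite G] {N M : Subgroup G} (h : F.Q N) (hM : M.Normal)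
    (hNM : N ≤ M) : F.Q M := by
  obtain ⟨h1, h2⟩ := h
  refine ⟨hM, ?_⟩
  refine F.mem_of_surjective (QuotientGroup.map N M (MonoidHom.id G) hNM) ?_ h2
  intro x
  obtain ⟨g, rfl⟩ := QuotientGroup.mk_surjective x
  exact ⟨(g : G ⧸ N), rfl⟩

theorem residual_le_iff {G : Type} [Group G] [Finite G] {N : Subgroup G} (hN : N.Normal) :
    F.residual G ≤ N ↔ F.Q N :=
  ⟨fun h => F.Q_of_le (F.Q_residual G) hN h, fun h => F.residual_le h⟩

theorem residual_le_ker_iff {G H : Type} [Group G] [Finite G] [Group H] [Finite H] (f : G →* H)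
    (hf : Function.Surjective f) : F.residual G ≤ f.ker ↔ F.Mem H := by
  rw [F.residual_le_iff inferInstance, F.Q_ker_iff f hf]

theorem residual_eq_bot_iff {G : Type} [Group G] [Finite G] : F.residual G = ⊥ ↔ F.Mem G := by
  rw [← F.Q_bot_iff, ← F.residual_le_iff inferInstance, le_bot_iff]

theorem map_residual {G H : Type} [Group G] [Finite G] [Group H] [Finite H] (f : G →* H)
    (hf : Function.Surjective f) : (F.residual G).map f = F.residual H := by
  have hN : ((F.residual G).map f).Normal := Subgroup.Normal.map inferInstance f hf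
  apply le_antisymm
  · rw [Subgroup.map_le_iff_le_comap]
    have h0 : Function.Surjective ((QuotientGroup.mk' (F.residual H)).comp f) :=
      (QuotientGroup.mk'_surjective _).comp hf
    have h : F.residual G ≤ ((QuotientGroup.mk' (F.residual H)).comp f).ker :=
      (F.residual_le_ker_iff _ h0).2 (F.mem_quot_residual H)
    rw [← MonoidHom.comap_ker, QuotientGroup.ker_mk'] at h
    exact h
  · rw [F.residual_le_iff hN]
    refine ⟨hN, ?_⟩
    refine F.mem_of_surjective (QuotientGroup.map (F.residual G) _ f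
      (Subgroup.le_comap_map f _)) ?_ (F.mem_quot_residual G)
    intro x
    obtain ⟨h, rfl⟩ := QuotientGroup.mk_surjective x
    obtain ⟨g, rfl⟩ := hf h
    exact ⟨(g : G ⧸ F.residual G), rfl⟩

/-- Constructor of formations from closure properties phrased with homomorphisms. -/
def mk' (Mem : (G : Type) → [Group G] → [Finite G] → Prop)
    (h1 : ∃ (G : Type) (_ : Group G) (_ : Finite G), Mem G)
    (h2 : ∀ {G H : Type} [Group G] [Finite G] [Group H] [Finite H] (f : G →* H),
      Function.Surjective f → Mem G → Mem H)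
    (h3 : ∀ {G H₁ H₂ : Type} [Group G] [Finite G] [Group H₁] [Finite H₁] [Group H₂] [Finite H₂]
      (f₁ : G →* H₁) (f₂ : G →* H₂), Function.Surjective f₁ → Function.Surjective f₂ →
      (∀ g, f₁ g = 1 → f₂ g = 1 → g = 1) → Mem H₁ → Mem H₂ → Mem G) : Formation where
  Mem := Mem
  exists_mem := h1
  iso e h := h2 e.toMonoidHom e.surjective h
  quot N _ h := h2 (QuotientGroup.mk' N) (QuotientGroup.mk'_surjective N) h
  inf := by
    intro G _ _ N₁ N₂ _ _ hN₁ hN₂
    refine h3 (QuotientGroup.map (N₁ ⊓ N₂) N₁ (MonoidHom.id G) inf_le_left)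
      (QuotientGroup.map (N₁ ⊓ N₂) N₂ (MonoidHom.id G) inf_le_right) ?_ ?_ ?_ hN₁ hN₂
    · intro x
      obtain ⟨g, rfl⟩ := QuotientGroup.mk_surjective x
      exact ⟨(g : G ⧸ (N₁ ⊓ N₂)), rfl⟩
    · intro x
      obtain ⟨g, rfl⟩ := QuotientGroup.mk_surjective x
      exact ⟨(g : G ⧸ (N₁ ⊓ N₂)), rfl⟩
    · intro x hx1 hx2
      obtain ⟨g, rfl⟩ := QuotientGroup.mk_surjective x
      have e1 : ((g : G) : G ⧸ N₁) = 1 := hx1
      have e2 : ((g : G) : G ⧸ N₂) = 1 := hx2
      rw [QuotientGroup.eq_one_iff] at e1 e2 ⊢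
      exact ⟨e1, e2⟩

theorem mem_of_family {ι : Type} [Finite ι] {G : Type} [Group G] [Finite G] (H : ι → Type)
    [∀ i, Group (H i)] [∀ i, Finite (H i)] (f : ∀ i, G →* H i)
    (hf : ∀ i, Function.Surjective (f i)) (hinj : ∀ g, (∀ i, f i g = 1) → g = 1)
    (hH : ∀ i, F.Mem (H i)) : F.Mem G := by
  rw [← F.Q_bot_iff]
  have h : F.Q (sInf (Set.range fun i => (f i).ker)) := by
    apply F.Q_sInf
    rintro _ ⟨i, rfl⟩
    exact (F.Q_ker_iff (f i) (hf i)).2 (hH i)
  have h2 : sInf (Set.range fun i => (f i).ker) = (⊥ : Subgroup G) := by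
    rw [eq_bot_iff]
    intro g hg
    rw [Subgroup.mem_bot]
    apply hinj
    intro i
    rw [Subgroup.mem_sInf] at hg
    exact hg _ ⟨i, rfl⟩
  rwa [h2] at h

theorem mem_of_two {G H₁ H₂ : Type} [Group G] [Finite G] [Group H₁] [Finite H₁] [Group H₂]
    [Finite H₂] (f₁ : G →* H₁) (f₂ : G →* H₂) (h1 : Function.Surjective f₁)
    (h2 : Function.Surjective f₂) (hinj : ∀ g, f₁ g = 1 → f₂ g = 1 → g = 1)
    (hH₁ : F.Mem H₁) (hH₂ : F.Mem H₂) : F.Mem G := by
  rw [← F.Q_bot_iff]
  have h := F.Q_inf ((F.Q_ker_iff f₁ h1).2 hH₁) ((F.Q_ker_iff f₂ h2).2 hH₂)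
  have h3 : f₁.ker ⊓ f₂.ker = ⊥ := by
    rw [eq_bot_iff]
    intro g hg
    exact hinj g hg.1 hg.2
  rwa [h3] at h

/-- the surjection between residuals induced by a surjection -/
theorem exists_residual_map {G H : Type} [Group G] [Finite G] [Group H] [Finite H] (f : G →* H)
    (hf : Function.Surjective f) : ∃ φ : F.residual G →* F.residual H,
      Function.Surjective φ ∧ ∀ x, ((φ x : F.residual H) : H) = f x := by
  have hmap := F.map_residual f hf
  refine ⟨(f.comp (F.residual G).subtype).codRestrict (F.residual H) ?_, ?_, ?_⟩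
  · rintro ⟨x, hx⟩
    rw [← hmap]
    exact ⟨x, hx, rfl⟩
  · rintro ⟨y, hy⟩
    rw [← hmap] at hy
    obtain ⟨x, hx, rfl⟩ := hy
    exact ⟨⟨x, hx⟩, rfl⟩
  · intro x
    rfl

/-- The product `A * B` of formations: the class of all `G` with `G^B` in `A`. -/
instance : Mul Formation where
  mul A B := mk' (fun G _ _ => A.Mem (B.residual G))
    (by
      obtain ⟨X, hX, hX', h⟩ := A.exists_mem
      refine ⟨PUnit, inferInstance, inferInstance, ?_⟩
      exact A.mem_of_subsingleton)
    (by
      intro G H _ _ _ _ f hf h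
      obtain ⟨φ, hφ, -⟩ := B.exists_residual_map f hf
      exact A.mem_of_surjective φ hφ h)
    (by
      intro G H₁ H₂ _ _ _ _ _ _ f₁ f₂ h1 h2 hinj hH₁ hH₂
      obtain ⟨φ₁, hφ₁, hφ₁'⟩ := B.exists_residual_map f₁ h1
      obtain ⟨φ₂, hφ₂, hφ₂'⟩ := B.exists_residual_map f₂ h2
      refine A.mem_of_two φ₁ φ₂ hφ₁ hφ₂ ?_ hH₁ hH₂
      intro g hg1 hg2
      have e1 : f₁ g = 1 := by rw [← hφ₁', hg1]; rfl
      have e2 : f₂ g = 1 := by rw [← hφ₂', hg2]; rfl
      exact Subtype.ext (hinj g e1 e2))

theorem mul_mem_iff (A B : Formation) (G : Type) [Group G] [Finite G] :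
    (A * B).Mem G ↔ A.Mem (B.residual G) := Iff.rfl

/-- The formation of trivial groups. -/
instance : One Formation where
  one := mk' (fun G _ _ => Subsingleton G) ⟨PUnit, inferInstance, inferInstance, inferInstance⟩
    (by
      intro G H _ _ _ _ f hf h
      exact hf.subsingleton)
    (by
      intro G H₁ H₂ _ _ _ _ _ _ f₁ f₂ h1 h2 hinj hH₁ hH₂
      refine ⟨fun a b => ?_⟩
      have := hinj (a * b⁻¹) (Subsingleton.elim _ _) (Subsingleton.elim _ _)
      rwa [mul_inv_eq_one] at this)

theorem one_mem_iff (G : Type) [Group G] [Finite G] : (1 : Formation).Mem G ↔ Subsingleton G :=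
  Iff.rfl

theorem ext_mem {A B : Formation} (h : ∀ (G : Type) [Group G] [Finite G], A.Mem G ↔ B.Mem G) :
    A = B := by
  ext G _ _
  exact h G

theorem residual_mul (A B : Formation) (G : Type) [Group G] [Finite G] :
    (A * B).residual G = (A.residual (B.residual G)).map (B.residual G).subtype := by
  have hN : ((A.residual (B.residual G)).map (B.residual G).subtype).Normal := by
    refine ⟨?_⟩
    rintro _ ⟨x, hx, rfl⟩ g
    -- conjugation by `g` as an automorphism of the residual
    have hconj : ∀ y ∈ B.residual G, g * y * g⁻¹ ∈ B.residual G :=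
      fun y hy => (B.residual_normal G).conj_mem y hy g
    let φ : B.residual G →* B.residual G :=
      ((MulAut.conj g).toMonoidHom.comp (B.residual G).subtype).codRestrict (B.residual G)
        (fun y => hconj y y.2)
    have hφ : Function.Surjective φ := by
      rintro ⟨y, hy⟩
      refine ⟨⟨g⁻¹ * y * g, ?_⟩, ?_⟩
      · have := (B.residual_normal G).conj_mem y hy g⁻¹
        simpa using this
      · apply Subtype.ext
        show g * (g⁻¹ * y * g) * g⁻¹ = y
        group
    have h2 := A.map_residual φ hφ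
    refine ⟨φ x, ?_, rfl⟩
    have h3 : φ x ∈ (A.residual (B.residual G)).map φ := ⟨x, hx, rfl⟩
    rwa [h2] at h3
  apply le_antisymm
  · rw [(A * B).residual_le_iff hN]
    refine ⟨hN, ?_⟩
    -- the residual of the quotient
    set N := (A.residual (B.residual G)).map (B.residual G).subtype with hNdef
    rw [mul_mem_iff]
    obtain ⟨φ, hφ, hφ'⟩ := B.exists_residual_map (QuotientGroup.mk' N)
      (QuotientGroup.mk'_surjective N)
    rw [← A.residual_le_ker_iff φ hφ]
    intro x hx
    rw [MonoidHom.mem_ker]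
    apply Subtype.ext
    rw [hφ']
    show ((x : G) : G ⧸ N) = 1
    rw [QuotientGroup.eq_one_iff]
    exact ⟨x, hx, rfl⟩
  · rw [Subgroup.map_le_iff_le_comap]
    have h : (A * B).Mem (G ⧸ (A * B).residual G) := (A * B).mem_quot_residual G
    rw [mul_mem_iff] at h
    obtain ⟨φ, hφ, hφ'⟩ := B.exists_residual_map (QuotientGroup.mk' ((A * B).residual G))
      (QuotientGroup.mk'_surjective _)
    rw [← A.residual_le_ker_iff φ hφ] at h
    intro x hx
    have h1 := h hx
    rw [MonoidHom.mem_ker] at h1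
    have h2 := hφ' x
    rw [h1] at h2
    have h3 : ((x : G) : G ⧸ (A * B).residual G) = 1 := h2.symm
    rw [QuotientGroup.eq_one_iff] at h3
    exact h3

theorem residual_one (G : Type) [Group G] [Finite G] : (1 : Formation).residual G = ⊤ := by
  rw [eq_top_iff]
  apply le_sInf
  rintro N ⟨_, hN⟩
  rw [one_mem_iff, QuotientGroup.subsingleton_iff] at hN
  exact hN.ge

instance : Monoid Formation where
  mul_assoc A B C := by
    apply ext_mem
    intro G _ _
    rw [mul_mem_iff, mul_mem_iff, mul_mem_iff, residual_mul]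
    have e : B.residual (C.residual G) ≃*
        (B.residual (C.residual G)).map (C.residual G).subtype :=
      (B.residual (C.residual G)).equivMapOfInjective _ (C.residual G).subtype_injective
    exact ⟨A.iso e, A.iso e.symm⟩
  one_mul A := by
    apply ext_mem
    intro G _ _
    rw [mul_mem_iff, one_mem_iff, ← A.residual_eq_bot_iff, Subgroup.eq_bot_iff_card, Nat.card_eq_one_iff_unique]
    exact ⟨fun h => ⟨h, inferInstance⟩, fun h => h.1⟩
  mul_one A := by
    apply ext_mem
    intro G _ _
    rw [mul_mem_iff, residual_one]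
    exact ⟨A.iso Subgroup.topEquiv, A.iso Subgroup.topEquiv.symm⟩

end Formation

/-- `F` is non-decomposable: there are no formations `A ≠ F`, `B ≠ F` with `F = A * B`. -/
def NonDecomposable (F : Formation) : Prop :=
  ¬ ∃ A B : Formation, A ≠ F ∧ B ≠ F ∧ F = A * B

/-- A formation is *saturated* if `G ⧸ Φ(G)` in it implies `G` in it. -/
def Formation.Saturated (F : Formation) : Prop :=
  ∀ (G : Type) [Group G] [Finite G], F.Mem (G ⧸ frattini G) → F.Mem G

/-- `M` is the one-generated saturated formation: it is the intersection of all saturated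
formations containing some fixed finite group. -/
def Formation.OneGeneratedSaturated (M : Formation) : Prop :=
  ∃ (G₀ : Type) (_ : Group G₀) (_ : Finite G₀), ∀ (X : Type) [Group X] [Finite X],
    M.Mem X ↔ ∀ L : Formation, L.Saturated → L.Mem G₀ → L.Mem X

end H355R3
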