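import Mathlib
import Pool.Agent.H355R3.Form1

set_option autoImplicit false

namespace H355R3

open RegularWreathProduct

section wreath

variable {T U : Type} [Group T] [Group U]

/-- conjugation by the constant function -/
theorem conj_const (t : T) (r : RegularWreathProduct T U) (hr : r.right = 1) (x : U) :
    ((⟨fun _ => t, 1⟩ : RegularWreathProduct T U) * r *
      (⟨fun _ => t, 1⟩ : RegularWreathProduct T U)⁻¹).left x = t * r.left x * t⁻¹ := by
  simp [hr]

theorem conj_inl (u : U) (r : RegularWreathProduct T U) (hr : r.right = 1) (x : U) :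
    ((⟨1, u⟩ : RegularWreathProduct T U) * r *
      (⟨1, u⟩ : RegularWreathProduct T U)⁻¹).left x = r.left (u⁻¹ * x) := by
  simp [hr]

/-- the coordinate of a subgroup of the base group -/
def coord (R : Subgroup (RegularWreathProduct T U)) (hR : ∀ r ∈ R, r.right = 1) (x : U) :
    R →* T where
  toFun r := (r : RegularWreathProduct T U).left x
  map_one' := rfl
  map_mul' a b := by
    simp [hR a a.2]

theorem coord_range_normal (R : Subgroup (RegularWreathProduct T U)) (hn : R.Normal)
    (hR : ∀ r ∈ R, r.right = 1) (x : U) : (coord R hR x).range.Normal := by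
  refine ⟨?_⟩
  rintro _ ⟨r, rfl⟩ t
  refine ⟨⟨_, hn.conj_mem r r.2 ⟨fun _ => t, 1⟩⟩, ?_⟩
  exact conj_const t r (hR r r.2) x

theorem coord_range_eq (R : Subgroup (RegularWreathProduct T U)) (hn : R.Normal)
    (hR : ∀ r ∈ R, r.right = 1) (x : U) : (coord R hR x).range = (coord R hR 1).range := by
  apply le_antisymm
  · rintro _ ⟨r, rfl⟩
    refine ⟨⟨_, hn.conj_mem r r.2 ⟨1, x⁻¹⟩⟩, ?_⟩
    have := conj_inl x⁻¹ (r : RegularWreathProduct T U) (hR r r.2) 1
    rw [inv_inv, mul_one] at this
    exact this
  · rintro _ ⟨r, rfl⟩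
    refine ⟨⟨_, hn.conj_mem r r.2 ⟨1, x⟩⟩, ?_⟩
    have := conj_inl x (r : RegularWreathProduct T U) (hR r r.2) x
    rw [inv_mul_cancel] at this
    exact this

theorem ext_of_coord (r : RegularWreathProduct T U) (hr : r.right = 1)
    (h : ∀ x, r.left x = 1) : r = 1 := by
  apply RegularWreathProduct.ext
  · funext x; exact h x
  · exact hr

theorem rightHom_surj : Function.Surjective (rightHom : RegularWreathProduct T U →* U) :=
  fun u => ⟨⟨1, u⟩, rfl⟩

/-- If all coordinates of a normal subgroup `R` of the base group are onto, `R` lies in every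
formation containing `T`. -/
theorem mem_of_coord_surj [Finite T] [Finite U] (A : Formation) (hT : A.Mem T)
    (R : Subgroup (RegularWreathProduct T U)) (hn : R.Normal)
    (hR : ∀ r ∈ R, r.right = 1) (h : (coord R hR 1).range = ⊤) : A.Mem R := by
  refine A.mem_of_family (ι := U) (fun _ => T) (fun x => coord R hR x) ?_ ?_ fun _ => hT
  · intro x
    rw [← MonoidHom.range_eq_top, coord_range_eq R hn hR x, h]
  · intro r hr
    exact Subtype.ext (ext_of_coord (r : RegularWreathProduct T U) (hR r r.2) hr)

theorem eq_bot_of_coord (R : Subgroup (RegularWreathProduct T U)) (hn : R.Normal)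
    (hR : ∀ r ∈ R, r.right = 1) (h : (coord R hR 1).range = ⊥) : R = ⊥ := by
  rw [eq_bot_iff]
  intro r hr
  rw [Subgroup.mem_bot]
  refine ext_of_coord r (hR r hr) fun x => ?_
  have : coord R hR x ⟨r, hr⟩ ∈ (coord R hR x).range := ⟨_, rfl⟩
  rw [coord_range_eq R hn hR x, h, Subgroup.mem_bot] at this
  exact this

/-- The regular wreath product of a simple group in `A` with a group in `B` lies in `A * B`. -/
theorem wreath_mem [Finite T] [Finite U] [IsSimpleGroup T] (A B : Formation) (hT : A.Mem T)
    (hU : B.Mem U) : (A * B).Mem (RegularWreathProduct T U) := by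
  rw [Formation.mul_mem_iff]
  have hR : ∀ r ∈ B.residual (RegularWreathProduct T U), r.right = 1 := by
    intro r hr
    exact ((B.residual_le_ker_iff (rightHom : RegularWreathProduct T U →* U) rightHom_surj).2 hU) hr
  have hn : (B.residual (RegularWreathProduct T U)).Normal := inferInstance
  rcases (coord_range_normal _ hn hR 1).eq_bot_or_eq_top with h | h
  · have := eq_bot_of_coord _ hn hR h
    have hs : Subsingleton (B.residual (RegularWreathProduct T U)) := by
      rw [this]; infer_instance
    exact A.mem_of_subsingleton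
  · exact mem_of_coord_surj A hT _ hn hR h

/-- functoriality of the wreath product in the first argument -/
def mapLeft {T' : Type} [Group T'] (f : T →* T') :
    RegularWreathProduct T U →* RegularWreathProduct T' U where
  toFun w := ⟨fun x => f (w.left x), w.right⟩
  map_one' := by
    apply RegularWreathProduct.ext
    · funext x; simp
    · rfl
  map_mul' a b := by
    apply RegularWreathProduct.ext
    · funext x; simp
    · rfl

theorem mapLeft_surj {T' : Type} [Group T'] (f : T →* T') (hf : Function.Surjective f) :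
    Function.Surjective (mapLeft (U := U) f) := by
  intro w
  choose g hg using fun x => hf (w.left x)
  refine ⟨⟨g, w.right⟩, ?_⟩
  apply RegularWreathProduct.ext
  · funext x; exact hg x
  · rfl

/-- A normal subgroup of `T ≀ U` meeting the base group trivially is trivial. -/
theorem eq_bot_of_inf_base [Nontrivial T] (K : Subgroup (RegularWreathProduct T U))
    (hn : K.Normal) (h : ∀ k ∈ K, k.right = 1 → k = 1) : K = ⊥ := by
  classical
  rw [eq_bot_iff]
  intro k hk
  rw [Subgroup.mem_bot]
  apply h k hk
  by_contra hne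
  obtain ⟨t, ht⟩ := exists_ne (1 : T)
  -- commutator with a base element
  let b : RegularWreathProduct T U := ⟨Pi.mulSingle 1 t, 1⟩
  have hc : b * k * b⁻¹ * k⁻¹ ∈ K := K.mul_mem (hn.conj_mem k hk b) (K.inv_mem hk)
  have hr : (b * k * b⁻¹ * k⁻¹).right = 1 := by
    simp [b]
  have h1 := h _ hc hr
  have h2 : b * k = k * b := by
    have := congrArg (fun z => z * k * b) h1
    simpa [mul_assoc] using this
  have h3 := congrFun (congrArg RegularWreathProduct.left h2) k.right
  simp only [RegularWreathProduct.mul_left, Pi.mul_apply, b, inv_mul_cancel, inv_one, one_mul,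
    Pi.mulSingle_eq_same, Pi.mulSingle_eq_of_ne hne] at h3
  have h4 : t = 1 := by
    have : k.left k.right = k.left k.right * t := h3
    exact (mul_eq_left.1 this.symm)
  exact ht h4

end wreath

/-- A nilpotent normal subgroup of `T ≀ U` with `T` simple is trivial, or a `p`-group with
`|T| = p`. -/
theorem nilp_normal {T U : Type} [Group T] [Group U] [Finite T] [Finite U] [IsSimpleGroup T]
    (K : Subgroup (RegularWreathProduct T U)) (hn : K.Normal) (hK : Group.IsNilpotent K) :
    K = ⊥ ∨ ∃ p : ℕ, p.Prime ∧ Nat.card T = p ∧ IsPGroup p K := by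
  -- Sylow subgroups
  have key : ∀ q : ℕ, q.Prime → ∀ P : Sylow q K, (P : Subgroup K) ≠ ⊥ → Nat.card T = q := by
    intro q hq P hP
    have : Fact q.Prime := ⟨hq⟩
    have hPn : (P : Subgroup K).Normal := by
      have q1 := (Group.isNilpotent_of_finite_tfae (G := K)).out 0 3
      exact q1.1 hK q inferInstance P
    have := hPn
    have hchar : (P : Subgroup K).Characteristic := P.characteristic_of_normal hPn
    have := hn
    have hmn : ((P : Subgroup K).map K.subtype).Normal := inferInstance
    set R0 : Subgroup (RegularWreathProduct T U) := (P : Subgroup K).map K.subtype with hR0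
    have hR0p : IsPGroup q R0 := P.isPGroup'.map _
    set B : Subgroup (RegularWreathProduct T U) :=
      (rightHom : RegularWreathProduct T U →* U).ker with hB
    set R := R0 ⊓ B with hRdef
    have hRn : R.Normal := inferInstance
    have hR : ∀ r ∈ R, r.right = 1 := fun r hr => hr.2
    rcases (coord_range_normal _ hRn hR 1).eq_bot_or_eq_top with h | h
    · exfalso
      have h1 := eq_bot_of_coord _ hRn hR h
      have h2 : R0 = ⊥ := by
        apply eq_bot_of_inf_base R0 hmn
        intro k hk hk'
        have : k ∈ R := ⟨hk, hk'⟩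
        rw [h1, Subgroup.mem_bot] at this
        exact this
      apply hP
      rw [hR0] at h2
      rwa [Subgroup.map_eq_bot_iff_of_injective _ K.subtype_injective] at h2
    · have hTp : IsPGroup q T := by
        have hRp : IsPGroup q R := hR0p.to_le inf_le_left
        exact hRp.of_surjective (coord R hR 1) (MonoidHom.range_eq_top.1 h)
      -- simple q-group
      have : Nontrivial T := inferInstance
      have : Nontrivial (Subgroup.center T) := hTp.center_nontrivial
      have hct : Subgroup.center T = ⊤ := by
        rcases (inferInstance : (Subgroup.center T).Normal).eq_bot_or_eq_top with h' | h'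
        · exfalso
          exact (Subgroup.nontrivial_iff_ne_bot _).1 inferInstance h'
        · exact h'
      let _ : CommGroup T := Group.commGroupOfCenterEqTop hct
      have hprime : (Nat.card T).Prime := IsSimpleGroup.prime_card
      obtain ⟨n, hn'⟩ := hTp.exists_card_eq
      have hdvd : Nat.card T ∣ q := hprime.dvd_of_dvd_pow (hn' ▸ dvd_rfl : Nat.card T ∣ q ^ n)
      exact (Nat.prime_dvd_prime_iff_eq hprime hq).1 hdvd
  by_cases hKb : K = ⊥
  · exact Or.inl hKb
  right
  -- some prime divides |K|
  have hcard : Nat.card K ≠ 1 := by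
    intro h
    exact hKb (Subgroup.eq_bot_of_card_eq K h)
  obtain ⟨p, hp, hpd⟩ := Nat.exists_prime_and_dvd hcard
  have : Fact p.Prime := ⟨hp⟩
  have hsyl : ∀ q : ℕ, q.Prime → q ∣ Nat.card K → Nat.card T = q := by
    intro q hq hqd
    have : Fact q.Prime := ⟨hq⟩
    obtain ⟨P⟩ : Nonempty (Sylow q K) := inferInstance
    exact key q hq P (P.ne_bot_of_dvd_card hqd)
  have hTp := hsyl p hp hpd
  refine ⟨p, hp, hTp, ?_⟩
  rw [IsPGroup.iff_card]
  refine ⟨(Nat.card K).primeFactorsList.length, ?_⟩
  refine Nat.eq_prime_pow_of_unique_prime_dvd Nat.card_pos.ne' ?_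
  intro d hd hdd
  rw [← hsyl d hd hdd, hTp]

/-- the subgroup generated by all `e`-th powers -/
def powSub (e : ℕ) (G : Type) [Group G] : Subgroup G :=
  Subgroup.closure (Set.range fun x : G => x ^ e)

theorem powSub_map {G H : Type} [Group G] [Group H] (e : ℕ) (f : G →* H)
    (hf : Function.Surjective f) : (powSub e G).map f = powSub e H := by
  rw [powSub, MonoidHom.map_closure, powSub]
  congr 1
  ext y
  constructor
  · rintro ⟨_, ⟨x, rfl⟩, rfl⟩
    exact ⟨f x, by simp⟩
  · rintro ⟨x, rfl⟩
    obtain ⟨z, rfl⟩ := hf x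
    exact ⟨z ^ e, ⟨z, rfl⟩, by simp⟩

instance powSub_normal (e : ℕ) (G : Type) [Group G] : (powSub e G).Normal := by
  refine ⟨?_⟩
  intro x hx g
  have h := powSub_map e (MulAut.conj g).toMonoidHom (MulAut.conj g).surjective
  rw [← h]
  exact ⟨x, hx, rfl⟩

theorem powSub_eq_bot_iff (e : ℕ) (G : Type) [Group G] :
    powSub e G = ⊥ ↔ ∀ x : G, x ^ e = 1 := by
  rw [powSub, Subgroup.closure_eq_bot_iff]
  constructor
  · intro h x
    exact h ⟨x, rfl⟩
  · rintro h _ ⟨x, rfl⟩
    exact h x

/-- alternation lemma -/
theorem alt_lemma {T S Y : Type} [Group T] [Group S] [Group Y] [Finite T] [Finite S] [Finite Y]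
    [IsSimpleGroup T] [IsSimpleGroup S] (e : ℕ)
    (h : Group.IsNilpotent (powSub e (RegularWreathProduct T (RegularWreathProduct S Y)))) :
    (∀ u : RegularWreathProduct S Y, u ^ e = 1) ∨
      ∃ p : ℕ, p.Prime ∧ Nat.card T = p ∧ Nat.card S = p := by
  have hmap := powSub_map e
    (rightHom : RegularWreathProduct T (RegularWreathProduct S Y) →* _) rightHom_surj
  rcases nilp_normal _ inferInstance h with h1 | ⟨p, hp, hT, hK⟩
  · left
    rw [← powSub_eq_bot_iff, ← hmap, h1, Subgroup.map_bot]
  · have hU : IsPGroup p (powSub e (RegularWreathProduct S Y)) := by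
      rw [← hmap]; exact hK.map _
    have : Fact p.Prime := ⟨hp⟩
    have hUn : Group.IsNilpotent (powSub e (RegularWreathProduct S Y)) := hU.isNilpotent
    by_cases hb : powSub e (RegularWreathProduct S Y) = ⊥
    · left
      rwa [← powSub_eq_bot_iff]
    rcases nilp_normal _ inferInstance hUn with h2 | ⟨q, hq, hS, hK'⟩
    · exact absurd h2 hb
    · right
      refine ⟨p, hp, hT, ?_⟩
      have hcard : Nat.card (powSub e (RegularWreathProduct S Y)) ≠ 1 := by
        intro h'
        exact hb (Subgroup.eq_bot_of_card_eq _ h')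
      have : Fact q.Prime := ⟨hq⟩
      obtain ⟨n, hn⟩ := hU.exists_card_eq
      obtain ⟨m, hm⟩ := hK'.exists_card_eq
      rw [hS]
      have hn0 : n ≠ 0 := by
        rintro rfl
        exact hcard (by rw [hn, pow_zero])
      have h3 : p ∣ q ^ m := by
        rw [← hm, hn]
        exact dvd_pow_self p hn0
      exact ((Nat.prime_dvd_prime_iff_eq hp hq).1 (hp.dvd_of_dvd_pow h3)).symm

end H355R3
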