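import Mathlib
import Pool.Agent.H355R3.Form2

set_option autoImplicit false

namespace H355R3

open RegularWreathProduct

/-- every nontrivial finite group has a simple quotient -/
theorem exists_simple_quotient (n : ℕ) : ∀ (G : Type) [Group G] [Finite G] [Nontrivial G],
    Nat.card G ≤ n → ∃ (S : Type) (_ : Group S) (_ : Finite S) (_ : IsSimpleGroup S) (f : G →* S),
      Function.Surjective f := by
  induction n with
  | zero =>
    intro G _ _ _ h
    exact absurd h (by have := Nat.card_pos (α := G); omega)
  | succ n ih =>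
    intro G _ _ _ h
    by_cases hs : ∀ N : Subgroup G, N.Normal → N = ⊥ ∨ N = ⊤
    · have : IsSimpleGroup G := { eq_bot_or_eq_top_of_normal := hs }
      exact ⟨G, inferInstance, inferInstance, this, MonoidHom.id G, Function.surjective_id⟩
    · push Not at hs
      obtain ⟨N, hN, h1, h2⟩ := hs
      have hnt : Nontrivial (G ⧸ N) := by
        by_contra hc
        rw [not_nontrivial_iff_subsingleton, QuotientGroup.subsingleton_iff] at hc
        exact h2 hc
      have hlt : Nat.card (G ⧸ N) ≤ n := by
        have e := Subgroup.card_eq_card_quotient_mul_card_subgroup N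
        have hNc : 1 < Nat.card N := by
          rw [Subgroup.one_lt_card_iff_ne_bot]
          exact h1
        have hpos : 0 < Nat.card (G ⧸ N) := Nat.card_pos
        have : Nat.card (G ⧸ N) < Nat.card G := by
          rw [e]
          nlinarith
        omega
      obtain ⟨S, i1, i2, i3, f, hf⟩ := ih (G ⧸ N) hlt
      exact ⟨S, i1, i2, i3, f.comp (QuotientGroup.mk' N), hf.comp (QuotientGroup.mk'_surjective N)⟩

theorem card_of_simple_pgroup {p : ℕ} (hp : p.Prime) (S : Type) [Group S] [Finite S]
    [IsSimpleGroup S] (h : IsPGroup p S) : Nat.card S = p := by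
  have : Fact p.Prime := ⟨hp⟩
  have : Nontrivial (Subgroup.center S) := h.center_nontrivial
  have hct : Subgroup.center S = ⊤ := by
    rcases (inferInstance : (Subgroup.center S).Normal).eq_bot_or_eq_top with h' | h'
    · exfalso
      exact (Subgroup.nontrivial_iff_ne_bot _).1 inferInstance h'
    · exact h'
  let _ : CommGroup S := Group.commGroupOfCenterEqTop hct
  have hprime : (Nat.card S).Prime := IsSimpleGroup.prime_card
  obtain ⟨n, hn'⟩ := h.exists_card_eq
  have hdvd : Nat.card S ∣ p := hprime.dvd_of_dvd_pow (hn' ▸ dvd_rfl : Nat.card S ∣ p ^ n)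
  exact (Nat.prime_dvd_prime_iff_eq hprime hp).1 hdvd

/-- the cyclic group of order `p` -/
abbrev Zp (p : ℕ) : Type := Multiplicative (ZMod p)

theorem card_Zp (p : ℕ) : Nat.card (Zp p) = p := by
  rw [show Nat.card (Zp p) = Nat.card (ZMod p) from rfl, Nat.card_zmod]

instance Zp_finite (p : ℕ) [Fact p.Prime] : Finite (Zp p) :=
  inferInstanceAs (Finite (ZMod p))

theorem nonempty_equiv_Zp {p : ℕ} [Fact p.Prime] (S : Type) [Group S] (h : Nat.card S = p) :
    Nonempty (S ≃* Zp p) :=
  ⟨mulEquivOfPrimeCardEq h (card_Zp p)⟩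

theorem Zp_isPGroup (p : ℕ) [Fact p.Prime] : IsPGroup p (Zp p) :=
  IsPGroup.of_card (n := 1) (by rw [card_Zp, pow_one])

theorem exists_surj_Zp {p : ℕ} [hp : Fact p.Prime] (G : Type) [Group G] [Finite G] [Nontrivial G]
    (h : IsPGroup p G) : ∃ f : G →* Zp p, Function.Surjective f := by
  obtain ⟨S, i1, i2, i3, f, hf⟩ := exists_simple_quotient _ G le_rfl
  have hS := card_of_simple_pgroup hp.out S (h.of_surjective f hf)
  obtain ⟨e⟩ := nonempty_equiv_Zp S hS
  exact ⟨e.toMonoidHom.comp f, e.surjective.comp hf⟩

theorem wreath_isPGroup {p : ℕ} {G V : Type} [Group G] [Group V] [Finite G] [Finite V]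
    [hp : Fact p.Prime]
    (hG : IsPGroup p G) (hV : IsPGroup p V) : IsPGroup p (RegularWreathProduct G V) := by
  rw [IsPGroup.iff_card]
  obtain ⟨n, hn⟩ := hG.exists_card_eq
  obtain ⟨m, hm⟩ := hV.exists_card_eq
  refine ⟨n * Nat.card V + m, ?_⟩
  rw [RegularWreathProduct.card, hn, pow_add, pow_mul, ← hm]

/-- embedding of `G` in the base group of the wreath product -/
theorem isPGroup_of_wreath {p : ℕ} {G V : Type} [Group G] [Group V]
    (h : IsPGroup p (RegularWreathProduct G V)) : IsPGroup p G := by
  have : ∀ g : G, ∃ k : ℕ, g ^ p ^ k = 1 := by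
    intro g
    obtain ⟨k, hk⟩ := h ⟨fun _ => g, 1⟩
    refine ⟨k, ?_⟩
    have h2 : ∀ m : ℕ, (⟨fun _ => g, 1⟩ : RegularWreathProduct G V) ^ m
        = ⟨fun _ => g ^ m, 1⟩ := by
      intro m
      induction m with
      | zero =>
        apply RegularWreathProduct.ext
        · funext x; simp
        · simp
      | succ m ih =>
        rw [pow_succ, ih]
        apply RegularWreathProduct.ext
        · funext x; simp [pow_succ]
        · simp
    rw [h2] at hk
    exact congrFun (congrArg RegularWreathProduct.left hk) 1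
  exact this

/-- The formation of all finite `p`-groups. -/
def pForm (p : ℕ) : Formation :=
  Formation.mk' (fun G _ _ => IsPGroup p G)
    ⟨PUnit, inferInstance, inferInstance, IsPGroup.of_card (n := 0) (by simp)⟩
    (fun f hf h => h.of_surjective f hf)
    (by
      intro G H₁ H₂ _ _ _ _ _ _ f₁ f₂ _ _ hinj h1 h2 g
      obtain ⟨a, ha⟩ := h1 (f₁ g)
      obtain ⟨b, hb⟩ := h2 (f₂ g)
      refine ⟨a + b, hinj _ ?_ ?_⟩
      · rw [map_pow, pow_add, pow_mul, ha, one_pow]
      · rw [map_pow, add_comm, pow_add, pow_mul, hb, one_pow])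

theorem pForm_mem_iff (p : ℕ) (G : Type) [Group G] [Finite G] :
    (pForm p).Mem G ↔ IsPGroup p G := Iff.rfl

/-- a formation closed under `V ↦ Z_p ≀ V` contains all `p`-groups -/
theorem mem_of_wreath_closed {p : ℕ} [hp : Fact p.Prime] (B : Formation)
    (hB : ∀ (V : Type) [Group V] [Finite V], B.Mem V → B.Mem (RegularWreathProduct (Zp p) V))
    (n : ℕ) : ∀ (K : Type) [Group K] [Finite K], Nat.card K ≤ n → IsPGroup p K → B.Mem K := by
  induction n with
  | zero =>
    intro K _ _ h _
    exact absurd h (by have := Nat.card_pos (α := K); omega)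
  | succ n ih =>
    intro K _ _ hcard hK
    by_cases hnt : Nontrivial K
    swap
    · rw [not_nontrivial_iff_subsingleton] at hnt
      exact B.mem_of_subsingleton
    have hcn : Nontrivial (Subgroup.center K) := hK.center_nontrivial
    -- central element of order p
    have hcp : IsPGroup p (Subgroup.center K) := hK.to_subgroup _
    have hdvd : p ∣ Nat.card (Subgroup.center K) := by
      obtain ⟨m, hm⟩ := hcp.exists_card_eq
      have hm0 : m ≠ 0 := by
        rintro rfl
        rw [pow_zero, Nat.card_eq_one_iff_unique] at hm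
        exact not_nontrivial_iff_subsingleton.2 hm.1 hcn
      rw [hm]
      exact dvd_pow_self p hm0
    obtain ⟨z, hz⟩ := exists_prime_orderOf_dvd_card' p hdvd
    set P : Subgroup K := Subgroup.zpowers (z : K) with hP
    have hPc : ∀ x ∈ P, ∀ k : K, k * x = x * k := by
      intro x hx k
      have hle : P ≤ Subgroup.center K := by
        rw [hP, Subgroup.zpowers_le]; exact z.2
      exact (Subgroup.mem_center_iff.1 (hle hx) k)
    have hPn : P.Normal := by
      refine ⟨fun x hx k => ?_⟩
      rw [hPc x hx k, mul_assoc, mul_inv_cancel, mul_one]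
      exact hx
    have hPcard : Nat.card P = p := by
      rw [hP, Nat.card_zpowers, ← hz]
      exact (Subgroup.orderOf_coe z)
    have hV : B.Mem (K ⧸ P) := by
      apply ih
      · have e := Subgroup.card_eq_card_quotient_mul_card_subgroup P
        have hpos : 0 < Nat.card (K ⧸ P) := Nat.card_pos
        have h2 := hp.out.two_le
        have : Nat.card (K ⧸ P) < Nat.card K := by
          rw [e, hPcard]
          nlinarith
        omega
      · exact hK.to_quotient P
    obtain ⟨eP⟩ := nonempty_equiv_Zp P hPcard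
    have hW : B.Mem (RegularWreathProduct P (K ⧸ P)) :=
      B.iso (RegularWreathProduct.congr eP.symm (MulEquiv.refl _)) (hB _ hV)
    -- the fibre product
    let D : Subgroup (RegularWreathProduct P (K ⧸ P) × K) :=
      MonoidHom.eqLocus
        ((rightHom : RegularWreathProduct P (K ⧸ P) →* K ⧸ P).comp (MonoidHom.fst _ _))
        ((QuotientGroup.mk' P).comp (MonoidHom.snd _ _))
    have hD : ∀ x : D, (x : RegularWreathProduct P (K ⧸ P) × K).1.right
        = ((x : RegularWreathProduct P (K ⧸ P) × K).2 : K ⧸ P) := fun x => x.2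
    have hDmem : ∀ (w : RegularWreathProduct P (K ⧸ P)) (k : K), w.right = (k : K ⧸ P) →
        (w, k) ∈ D := fun w k h => h
    -- section
    let s : K ⧸ P → K := Quotient.out
    have hs : ∀ v : K ⧸ P, (s v : K ⧸ P) = v := fun v => QuotientGroup.out_eq' v
    have hτ : ∀ (k : K) (v : K ⧸ P), (s v)⁻¹ * k * s ((k : K ⧸ P)⁻¹ * v) ∈ P := by
      intro k v
      rw [← QuotientGroup.eq_one_iff]
      rw [QuotientGroup.mk_mul, QuotientGroup.mk_mul, QuotientGroup.mk_inv, hs, hs]
      group
    let τ : K → K ⧸ P → P := fun k v => ⟨_, hτ k v⟩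
    have hcomm : ∀ a b : P, a * b = b * a := by
      intro a b
      apply Subtype.ext
      exact hPc b b.2 a
    have hτmul : ∀ k k' v, τ (k * k') v = τ k v * τ k' ((k : K ⧸ P)⁻¹ * v) := by
      intro k k' v
      apply Subtype.ext
      show (s v)⁻¹ * (k * k') * s (((k * k' : K) : K ⧸ P)⁻¹ * v) =
        ((s v)⁻¹ * k * s ((k : K ⧸ P)⁻¹ * v)) * ((s ((k : K ⧸ P)⁻¹ * v))⁻¹ * k' *
          s ((k' : K ⧸ P)⁻¹ * ((k : K ⧸ P)⁻¹ * v)))
      have e : ((k * k' : K) : K ⧸ P)⁻¹ * v = (k' : K ⧸ P)⁻¹ * ((k : K ⧸ P)⁻¹ * v) := by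
        rw [QuotientGroup.mk_mul]; group
      rw [e]
      group
    let θ₂ : D →* RegularWreathProduct P (K ⧸ P) :=
      { toFun := fun x => ⟨fun v => (x : RegularWreathProduct P (K ⧸ P) × K).1.left v *
          τ (x : RegularWreathProduct P (K ⧸ P) × K).2 v,
          (x : RegularWreathProduct P (K ⧸ P) × K).1.right⟩
        map_one' := by
          apply RegularWreathProduct.ext
          · funext v
            apply Subtype.ext
            show (1 : K) * ((s v)⁻¹ * 1 * s (((1 : K) : K ⧸ P)⁻¹ * v)) = 1
            rw [QuotientGroup.mk_one]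
            simp
          · rfl
        map_mul' := by
          intro x y
          apply RegularWreathProduct.ext
          · funext v
            have hx := hD x
            simp only [Subgroup.coe_mul, Prod.fst_mul, Prod.snd_mul,
              RegularWreathProduct.mul_left, Pi.mul_apply, hτmul, hx]
            rw [mul_assoc, mul_assoc, ← mul_assoc
              ((y : RegularWreathProduct P (K ⧸ P) × K).1.left _) (τ _ v) _, hcomm
              ((y : RegularWreathProduct P (K ⧸ P) × K).1.left _) (τ _ v), mul_assoc]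
          · rfl }
    have hθ₂ : Function.Surjective θ₂ := by
      intro w
      obtain ⟨k, hk⟩ := QuotientGroup.mk_surjective w.right
      refine ⟨⟨(⟨fun v => w.left v * (τ k v)⁻¹, w.right⟩, k), hDmem _ _ hk.symm⟩, ?_⟩
      apply RegularWreathProduct.ext
      · funext v
        show w.left v * (τ k v)⁻¹ * τ k v = w.left v
        rw [inv_mul_cancel_right]
      · rfl
    let θ₁ : D →* RegularWreathProduct P (K ⧸ P) := (MonoidHom.fst _ _).comp D.subtype
    have hθ₁ : Function.Surjective θ₁ := by
      intro w
      obtain ⟨k, hk⟩ := QuotientGroup.mk_surjective w.right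
      exact ⟨⟨(w, k), hDmem _ _ hk.symm⟩, rfl⟩
    have hDB : B.Mem D := by
      refine B.mem_of_two θ₁ θ₂ hθ₁ hθ₂ ?_ hW hW
      rintro ⟨⟨w, k⟩, hwk⟩ h1 h2
      have hw : w = 1 := h1
      subst hw
      have hk : (k : K ⧸ P) = 1 := ((hD ⟨(1, k), hwk⟩).symm).trans rfl
      have hkP : k ∈ P := (QuotientGroup.eq_one_iff k).1 hk
      have h3 := congrFun (congrArg RegularWreathProduct.left h2) 1
      have h4 : (1 : K) * ((s 1)⁻¹ * k * s ((k : K ⧸ P)⁻¹ * 1)) = 1 := congrArg Subtype.val h3
      rw [hk, inv_one, one_mul, one_mul, mul_assoc, ← hPc k hkP, inv_mul_cancel_left] at h4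
      apply Subtype.ext
      exact Prod.ext rfl h4
    let π : D →* K := (MonoidHom.snd _ _).comp D.subtype
    refine B.mem_of_surjective π ?_ hDB
    intro k
    exact ⟨⟨(⟨1, (k : K ⧸ P)⟩, k), hDmem _ _ rfl⟩, rfl⟩

theorem right_le_mul (A B : Formation) {G : Type} [Group G] [Finite G] (h : B.Mem G) :
    (A * B).Mem G := by
  rw [Formation.mul_mem_iff]
  rw [← B.residual_eq_bot_iff] at h
  rw [h]
  exact A.mem_of_subsingleton

/-- The formation of all finite `p`-groups is non-decomposable. -/
theorem pForm_nonDecomposable {p : ℕ} (hp : p.Prime) : NonDecomposable (pForm p) := by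
  have : Fact p.Prime := ⟨hp⟩
  rintro ⟨A, B, hA, hB, hAB⟩
  have hBp : ∀ (G : Type) [Group G] [Finite G], B.Mem G → IsPGroup p G := by
    intro G _ _ h
    have := right_le_mul A B h
    rw [← hAB] at this
    exact this
  obtain ⟨V, iV, fV, hV, hVn⟩ : ∃ (V : Type) (_ : Group V) (_ : Finite V), B.Mem V ∧
      ¬ B.Mem (RegularWreathProduct (Zp p) V) := by
    by_contra hc
    push Not at hc
    apply hB
    apply Formation.ext_mem
    intro G _ _
    refine ⟨fun h => hBp G h, fun h => ?_⟩
    exact mem_of_wreath_closed B (fun V _ _ hV => hc V _ _ hV) _ G le_rfl h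
  -- coordinates are onto
  have hR : ∀ (G : Type) [Group G] [Finite G],
      ∀ r ∈ B.residual (RegularWreathProduct G V), r.right = 1 := by
    intro G _ _ r hr
    exact ((B.residual_le_ker_iff (rightHom : RegularWreathProduct G V →* V)
      rightHom_surj).2 hV) hr
  have key : ∀ (G : Type) [Group G] [Finite G],
      (coord (B.residual (RegularWreathProduct G V)) (hR G) 1).range = ⊤ := by
    intro G _ _
    by_contra hne
    set M := (coord (B.residual (RegularWreathProduct G V)) (hR G) 1).range with hM
    have hMn : M.Normal := coord_range_normal _ inferInstance (hR G) 1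
    have h1 : B.Mem (RegularWreathProduct (G ⧸ M) V) := by
      rw [← B.residual_le_ker_iff (mapLeft (QuotientGroup.mk' M))
        (mapLeft_surj _ (QuotientGroup.mk'_surjective M))]
      intro r hr
      rw [MonoidHom.mem_ker]
      apply RegularWreathProduct.ext
      · funext x
        show ((r.left x : G) : G ⧸ M) = 1
        rw [QuotientGroup.eq_one_iff, hM, ← coord_range_eq _ inferInstance (hR G) x]
        exact ⟨⟨r, hr⟩, rfl⟩
      · exact hR G r hr
    have h2 : IsPGroup p (G ⧸ M) := isPGroup_of_wreath (hBp _ h1)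
    have hnt : Nontrivial (G ⧸ M) := by
      by_contra hc
      rw [not_nontrivial_iff_subsingleton, QuotientGroup.subsingleton_iff] at hc
      exact hne hc
    obtain ⟨f, hf⟩ := exists_surj_Zp (G ⧸ M) h2
    exact hVn (B.mem_of_surjective (mapLeft f) (mapLeft_surj f hf) h1)
  apply hA
  apply Formation.ext_mem
  intro G _ _
  rw [pForm_mem_iff]
  constructor
  · intro hG
    have h1 : A.Mem (B.residual (RegularWreathProduct G V)) :=
      mem_of_coord_surj A hG _ inferInstance (hR G) (key G)
    have h2 : (A * B).Mem (RegularWreathProduct G V) := h1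
    rw [← hAB] at h2
    exact isPGroup_of_wreath h2
  · intro hG
    have h1 : (pForm p).Mem (RegularWreathProduct G V) := wreath_isPGroup hG (hBp V hV)
    rw [hAB, Formation.mul_mem_iff] at h1
    exact A.mem_of_surjective _ (MonoidHom.range_eq_top.1 (key G)) h1

end H355R3
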