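import Mathlib
import Pool.Agent.H355R3.Form3

set_option autoImplicit false

namespace H355R3

open RegularWreathProduct

/-- order growth in wreath products -/
theorem exists_orderOf_wreath {T Y : Type} [Group T] [Group Y] [Finite T] [Finite Y]
    [Nontrivial T] (y : Y) : ∃ w : RegularWreathProduct T Y, 2 * orderOf y ≤ orderOf w := by
  classical
  obtain ⟨t, ht⟩ := exists_ne (1 : T)
  let w : RegularWreathProduct T Y := ⟨Pi.mulSingle 1 t, y⟩
  have claimA : ∀ (j : ℕ) (x : Y), (∀ i < j, x ≠ y ^ i) → (w ^ j).left x = 1 := by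
    intro j
    induction j with
    | zero => intro x _; simp
    | succ j ih =>
      intro x hx
      rw [pow_succ']
      simp only [RegularWreathProduct.mul_left, Pi.mul_apply]
      have h0 : x ≠ 1 := by
        have := hx 0 (Nat.succ_pos j)
        rwa [pow_zero] at this
      have h1 : (w ^ j).left (w.right⁻¹ * x) = 1 := by
        apply ih
        intro i hi hxi
        apply hx (i + 1) (Nat.succ_lt_succ hi)
        have : x = w.right * y ^ i := by rw [← hxi]; group
        rw [this, pow_succ']
      rw [h1, mul_one]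
      exact Pi.mulSingle_eq_of_ne (M := fun _ : Y => T) h0 t
  have hpos : 0 < orderOf y := orderOf_pos y
  obtain ⟨m, hm⟩ : ∃ m, orderOf y = m + 1 := ⟨orderOf y - 1, by omega⟩
  have claimB : (w ^ (m + 1)).left 1 = t := by
    rw [pow_succ']
    simp only [RegularWreathProduct.mul_left, Pi.mul_apply, mul_one]
    have h1 : (w ^ m).left (w.right⁻¹) = 1 := by
      apply claimA
      intro i hi hxi
      have h2 : y ^ (i + 1) = 1 := by
        rw [pow_succ', ← hxi]
        exact mul_inv_cancel y
      have h3 := orderOf_dvd_of_pow_eq_one h2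
      have h4 := Nat.le_of_dvd (Nat.succ_pos i) h3
      omega
    rw [h1, mul_one]
    exact Pi.mulSingle_eq_same (M := fun _ : Y => T) 1 t
  refine ⟨w, ?_⟩
  have hdvd : orderOf y ∣ orderOf w :=
    orderOf_map_dvd (rightHom : RegularWreathProduct T Y →* Y) w
  obtain ⟨c, hc⟩ := hdvd
  have hwpos : 0 < orderOf w := orderOf_pos w
  have hc0 : c ≠ 0 := by
    rintro rfl
    omega
  have hc1 : c ≠ 1 := by
    rintro rfl
    rw [mul_one] at hc
    have h5 : w ^ orderOf y = 1 := by rw [← hc]; exact pow_orderOf_eq_one w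
    rw [hm] at h5
    rw [h5] at claimB
    exact ht claimB.symm
  have hc2 : 2 ≤ c := by omega
  rw [hc]
  nlinarith

theorem exists_simple_mem (A : Formation) (hA : A ≠ 1) :
    ∃ (S : Type) (_ : Group S) (_ : Finite S) (_ : IsSimpleGroup S), A.Mem S := by
  have h : ∃ (G : Type) (_ : Group G) (_ : Finite G), A.Mem G ∧ ¬ Subsingleton G := by
    by_contra hc
    push Not at hc
    apply hA
    apply Formation.ext_mem
    intro G _ _
    rw [Formation.one_mem_iff]
    constructor
    · intro hG
      exact hc G _ _ hG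
    · intro hG
      exact A.mem_of_subsingleton
  obtain ⟨G, i1, i2, hG, hn⟩ := h
  have : Nontrivial G := not_subsingleton_iff_nontrivial.1 hn
  obtain ⟨S, j1, j2, j3, f, hf⟩ := exists_simple_quotient _ G le_rfl
  exact ⟨S, j1, j2, j3, A.mem_of_surjective f hf hG⟩

theorem big_order (l : List Formation) (hl : ∀ A ∈ l, A ≠ 1) :
    ∃ (X : Type) (_ : Group X) (_ : Finite X), l.prod.Mem X ∧ ∃ x : X, 2 ^ l.length ≤ orderOf x := by
  induction l with
  | nil =>
    refine ⟨PUnit, inferInstance, inferInstance, Formation.mem_of_subsingleton _, 1, ?_⟩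
    rw [List.length_nil, pow_zero]
    exact orderOf_pos _
  | cons A l ih =>
    obtain ⟨Y, iY, fY, hY, y, hy⟩ := ih fun B hB => hl B (List.mem_cons_of_mem _ hB)
    obtain ⟨S, i1, i2, i3, hS⟩ := exists_simple_mem A (hl A List.mem_cons_self)
    obtain ⟨w, hw⟩ := exists_orderOf_wreath (T := S) y
    refine ⟨RegularWreathProduct S Y, inferInstance, inferInstance, ?_, w, ?_⟩
    · rw [List.prod_cons]
      exact wreath_mem A l.prod hS hY
    · rw [List.length_cons, pow_succ]
      omega

theorem length_bound (F : Formation) (e : ℕ) (he : 0 < e)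
    (hF : ∀ (X : Type) [Group X] [Finite X], F.Mem X → ∀ x : X, x ^ e = 1)
    (l : List Formation) (hl : ∀ A ∈ l, A ≠ 1) (hprod : l.prod = F) : 2 ^ l.length ≤ e := by
  obtain ⟨X, iX, fX, hX, x, hx⟩ := big_order l hl
  rw [hprod] at hX
  exact hx.trans (Nat.le_of_dvd he (orderOf_dvd_of_pow_eq_one (hF X hX x)))

/-- every group in `F` has nilpotent `e`-th power subgroup -/
def NilPow (e : ℕ) (F : Formation) : Prop :=
  ∀ (X : Type) [Group X] [Finite X], F.Mem X → Group.IsNilpotent (powSub e X)

theorem NilPow.right {e : ℕ} {A B : Formation} (h : NilPow e (A * B)) : NilPow e B :=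
  fun X _ _ hX => h X (right_le_mul A B hX)

theorem alt_list {e : ℕ} (he : 0 < e) (A A' : Formation) (l : List Formation)
    (hl : ∀ B ∈ l, B ≠ 1) (h : NilPow e (A * (A' * l.prod))) (hlen : e < 2 ^ (l.length + 1))
    (T S : Type) [Group T] [Group S] [Finite T] [Finite S] [IsSimpleGroup T] [IsSimpleGroup S]
    (hT : A.Mem T) (hS : A'.Mem S) : ∃ p : ℕ, p.Prime ∧ Nat.card T = p ∧ Nat.card S = p := by
  obtain ⟨Y, iY, fY, hY, y, hy⟩ := big_order l hl
  have h1 : (A' * l.prod).Mem (RegularWreathProduct S Y) := wreath_mem A' l.prod hS hY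
  have h2 := wreath_mem A (A' * l.prod) hT h1
  rcases alt_lemma e (h _ h2) with h3 | h3
  · exfalso
    obtain ⟨w, hw⟩ := exists_orderOf_wreath (T := S) y
    have h4 := Nat.le_of_dvd he (orderOf_dvd_of_pow_eq_one (h3 w))
    rw [pow_succ] at hlen
    omega
  · exact h3

/-- `A` is nontrivial and all simple groups in `A` have order `p` -/
def PS (p : ℕ) (A : Formation) : Prop :=
  A ≠ 1 ∧ ∀ (S : Type) [Group S] [Finite S] [IsSimpleGroup S], A.Mem S → Nat.card S = p

theorem PS.mem_Zp {p : ℕ} [hp : Fact p.Prime] {A : Formation} (h : PS p A) : A.Mem (Zp p) := by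
  obtain ⟨S, i1, i2, i3, hS⟩ := exists_simple_mem A h.1
  obtain ⟨e⟩ := nonempty_equiv_Zp S (h.2 S hS)
  exact A.iso e hS

theorem splitting {e : ℕ} (he : 0 < e) (A' : Formation) (l₂ : List Formation)
    (hA' : A' ≠ 1) (hl₂ : ∀ B ∈ l₂, B ≠ 1) (hlen : e < 2 ^ (l₂.length + 1)) :
    ∀ (l₁ : List Formation) (A : Formation), (∀ B ∈ A :: l₁, B ≠ 1) →
      NilPow e (((A :: l₁) ++ A' :: l₂).prod) →
      ∃ p : ℕ, p.Prime ∧ ∀ B ∈ A :: l₁, PS p B := by
  intro l₁
  induction l₁ with
  | nil =>
    intro A hA hN
    have hN' : NilPow e (A * (A' * l₂.prod)) := by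
      simpa using hN
    obtain ⟨S, i1, i2, i3, hS⟩ := exists_simple_mem A' hA'
    obtain ⟨T, j1, j2, j3, hT⟩ := exists_simple_mem A (hA A List.mem_cons_self)
    obtain ⟨p, hp, -, hSp⟩ := alt_list he A A' l₂ hl₂ hN' hlen T S hT hS
    refine ⟨p, hp, ?_⟩
    intro B hB
    rw [List.mem_singleton] at hB
    subst hB
    refine ⟨hA B List.mem_cons_self, ?_⟩
    intro T' _ _ _ hT'
    obtain ⟨q, hq, h1, h2⟩ := alt_list he B A' l₂ hl₂ hN' hlen T' S hT' hS
    rw [h1, ← h2, hSp]
  | cons C l₁ ih =>
    intro A hA hN
    have hN' : NilPow e (A * (C * (l₁ ++ A' :: l₂).prod)) := by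
      simpa using hN
    have hN'' : NilPow e (((C :: l₁) ++ A' :: l₂).prod) := by
      have := hN'.right
      simpa using this
    obtain ⟨p, hp, hps⟩ := ih C (fun B hB => hA B (List.mem_cons_of_mem _ hB)) hN''
    refine ⟨p, hp, ?_⟩
    intro B hB
    rw [List.mem_cons] at hB
    rcases hB with rfl | hB
    · refine ⟨hA B List.mem_cons_self, ?_⟩
      intro T _ _ _ hT
      obtain ⟨S, i1, i2, i3, hS⟩ := exists_simple_mem C (hps C List.mem_cons_self).1
      have hall : ∀ D ∈ l₁ ++ A' :: l₂, D ≠ 1 := by
        intro D hD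
        rw [List.mem_append, List.mem_cons] at hD
        rcases hD with hD | rfl | hD
        · exact hA D (List.mem_cons_of_mem _ (List.mem_cons_of_mem _ hD))
        · exact hA'
        · exact hl₂ D hD
      have hlen' : e < 2 ^ ((l₁ ++ A' :: l₂).length + 1) := by
        refine hlen.trans_le (Nat.pow_le_pow_right (by norm_num) ?_)
        simp only [List.length_append, List.length_cons]
        omega
      obtain ⟨q, hq, h1, h2⟩ := alt_list he B C _ hall hN' hlen' T S hT hS
      rw [h1, ← h2, (hps C List.mem_cons_self).2 S hS]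
    · exact hps B hB

theorem trivial_of_no_quotient {p : ℕ} [hp : Fact p.Prime] (l : List Formation) :
    (∀ A ∈ l, PS p A) → ∀ (R : Type) [Group R] [Finite R], l.prod.Mem R →
    (∀ f : R →* Zp p, ¬ Function.Surjective f) → Subsingleton R := by
  induction l using List.reverseRecOn with
  | nil =>
    intro _ R _ _ h _
    exact h
  | append_singleton l A ih =>
    intro hl R _ _ hR hno
    rw [List.prod_append, List.prod_singleton, Formation.mul_mem_iff] at hR
    have htop : A.residual R = ⊤ := by
      by_contra hne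
      have hnt : Nontrivial (R ⧸ A.residual R) := by
        by_contra hc
        rw [not_nontrivial_iff_subsingleton, QuotientGroup.subsingleton_iff] at hc
        exact hne hc
      obtain ⟨S, j1, j2, j3, f, hf⟩ := exists_simple_quotient _ (R ⧸ A.residual R) le_rfl
      have hS : A.Mem S := A.mem_of_surjective f hf (A.mem_quot_residual R)
      have hcard := (hl A (by simp)).2 S hS
      obtain ⟨e⟩ := nonempty_equiv_Zp S hcard
      exact hno ((e.toMonoidHom.comp f).comp (QuotientGroup.mk' _))
        ((e.surjective.comp hf).comp (QuotientGroup.mk'_surjective _))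
    rw [htop] at hR
    exact ih (fun B hB => hl B (by simp [hB])) R (l.prod.iso Subgroup.topEquiv hR) hno

theorem descent {p : ℕ} [hp : Fact p.Prime] (l : List Formation) :
    (∀ A ∈ l, PS p A) → ∀ (R : Type) [Group R] [Finite R], Nat.card R ≤ l.length →
    l.prod.Mem R → l.tail.prod.Mem R := by
  induction l using List.reverseRecOn with
  | nil =>
    intro _ R _ _ h _
    exact absurd h (by have := Nat.card_pos (α := R); simp only [List.length_nil]; omega)
  | append_singleton l A ih =>
    intro hl R _ _ hcard hR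
    have hR' := hR
    rw [List.prod_append, List.prod_singleton, Formation.mul_mem_iff] at hR'
    by_cases htop : A.residual R = ⊤
    · have hsub : Subsingleton R := by
        apply trivial_of_no_quotient (p := p) _ hl R hR
        intro f hf
        have h1 : A.residual R ≤ f.ker :=
          (A.residual_le_ker_iff f hf).2 (hl A (by simp)).mem_Zp
        rw [htop, top_le_iff] at h1
        have h2 : ∀ x : Zp p, x = 1 := by
          intro x
          obtain ⟨r, rfl⟩ := hf x
          have : r ∈ f.ker := by rw [h1]; trivial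
          exact this
        have h3 : Nat.card (Zp p) = 1 := by
          rw [Nat.card_eq_one_iff_unique]
          exact ⟨⟨fun a b => (h2 a).trans (h2 b).symm⟩, ⟨1⟩⟩
        rw [card_Zp] at h3
        exact hp.out.one_lt.ne' h3
      exact Formation.mem_of_subsingleton _
    · have hlt : Nat.card (A.residual R) < Nat.card R := by
        refine lt_of_le_of_ne (Subgroup.card_le_card_group _) ?_
        intro h
        exact htop (Subgroup.eq_top_of_card_eq _ h)
      rw [List.length_append, List.length_singleton] at hcard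
      have h1 := ih (fun B hB => hl B (by simp [hB])) (A.residual R) (by omega) hR'
      have hne : l ≠ [] := by
        rintro rfl
        have := Nat.card_pos (α := A.residual R)
        simp only [List.length_nil] at hcard
        omega
      rw [List.tail_append_of_ne_nil hne, List.prod_append, List.prod_singleton,
        Formation.mul_mem_iff]
      exact h1

theorem descent' {p : ℕ} [hp : Fact p.Prime] (l₁ l₂ : List Formation) (hl : ∀ A ∈ l₁, PS p A)
    (X : Type) [Group X] [Finite X] (hX : (l₁ ++ l₂).prod.Mem X)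
    (hcard : Nat.card X ≤ l₁.length) : (l₁.tail ++ l₂).prod.Mem X := by
  rw [List.prod_append, Formation.mul_mem_iff] at hX ⊢
  exact descent l₁ hl _ ((Subgroup.card_le_card_group _).trans hcard) hX

theorem exists_hom_ne_zero {p : ℕ} [Fact p.Prime] (V : Type) [AddCommGroup V]
    [Module (ZMod p) V] (v : V) (hv : v ≠ 0) : ∃ f : V →+ ZMod p, f v ≠ 0 := by
  by_contra hc
  push Not at hc
  apply hv
  rw [← Module.forall_dual_apply_eq_zero_iff (ZMod p)]
  intro φ
  exact hc (φ : V →ₗ[ZMod p] ZMod p).toAddMonoidHom

/-- elementary abelian groups -/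
theorem mem_of_elementary' {p : ℕ} [hp : Fact p.Prime] (A : Formation) (hA : A.Mem (Zp p))
    (E : Type) [CommGroup E] [Finite E] (hpow : ∀ x : E, x ^ p = 1) :
    A.Mem E := by
  let _ : Module (ZMod p) (Additive E) := AddCommGroup.zmodModule (n := p) (by
    intro x
    exact hpow x)
  have hfin : Finite {f : E →* Zp p // Function.Surjective f} := by
    have : Finite (E →* Zp p) := DFunLike.finite _
    infer_instance
  refine A.mem_of_family (ι := {f : E →* Zp p // Function.Surjective f}) (fun _ => Zp p)
    (fun f => f.1) (fun f => f.2) ?_ fun _ => hA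
  intro g hg
  by_contra hne
  have h1 : (Additive.ofMul g : Additive E) ≠ 0 := hne
  obtain ⟨φ, hφ⟩ := exists_hom_ne_zero (p := p) (Additive E) _ h1
  let f : E →* Zp p := AddMonoidHom.toMultiplicativeRight φ
  have hf : Function.Surjective f := by
    rw [← MonoidHom.range_eq_top]
    have hsimple : IsSimpleGroup (Zp p) := isSimpleGroup_of_prime_card (card_Zp p)
    rcases (inferInstance : f.range.Normal).eq_bot_or_eq_top with h | h
    · exfalso
      have h3 : f g ∈ f.range := ⟨g, rfl⟩
      rw [h, Subgroup.mem_bot] at h3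
      exact hφ h3
    · exact h
  exact hφ (hg ⟨f, hf⟩)

theorem mem_of_elementary {p : ℕ} [hp : Fact p.Prime] (A : Formation) (hA : A.Mem (Zp p))
    (E : Type) [i : Group E] [Finite E] (hc : ∀ x y : E, x * y = y * x)
    (hpow : ∀ x : E, x ^ p = 1) : A.Mem E :=
  @mem_of_elementary' p hp A hA E { i with mul_comm := hc } _ hpow

end H355R3
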