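import Mathlib
import Pool.Agent.H355R3.Form4

set_option autoImplicit false

namespace H355R3

open RegularWreathProduct

/-- bounded factorization length -/
def Bdd (F : Formation) : Prop :=
  ∃ N : ℕ, ∀ l : List Formation, (∀ A ∈ l, A ≠ 1) → l.prod = F → l.length ≤ N

theorem one_nonDecomposable : NonDecomposable (1 : Formation) := by
  rintro ⟨A, B, hA, hB, hAB⟩
  apply hB
  apply Formation.ext_mem
  intro G _ _
  constructor
  · intro h
    rw [hAB]
    exact right_le_mul A B h
  · intro h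
    rw [Formation.one_mem_iff] at h
    exact B.mem_of_subsingleton

/-- If the lengths of the factorizations of `F` are bounded, then `F` is a finite product of
non-decomposable formations. -/
theorem product_of_bdd (F : Formation) (hF : Bdd F) :
    ∃ l : List Formation, l ≠ [] ∧ (∀ A ∈ l, NonDecomposable A) ∧ l.prod = F := by
  classical
  by_cases h1 : F = 1
  · exact ⟨[1], by simp, by simpa using one_nonDecomposable, by simp [h1]⟩
  obtain ⟨N, hN⟩ := hF
  let S : Set ℕ := {n | ∃ l : List Formation, (∀ A ∈ l, A ≠ 1) ∧ l.prod = F ∧ l.length = n}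
  have hSne : S.Nonempty := ⟨1, [F], by simpa using h1, by simp, by simp⟩
  have hSb : BddAbove S := by
    refine ⟨N, ?_⟩
    rintro n ⟨l, hl, hp, rfl⟩
    exact hN l hl hp
  obtain ⟨l, hl, hp, hlen⟩ := Nat.sSup_mem hSne hSb
  refine ⟨l, ?_, ?_, hp⟩
  · rintro rfl
    exact h1 (by rw [← hp, List.prod_nil])
  · intro A hA
    rintro ⟨B, C, hB, hC, hBC⟩
    have hB1 : B ≠ 1 := by
      rintro rfl
      rw [one_mul] at hBC
      exact hC hBC.symm
    have hC1 : C ≠ 1 := by
      rintro rfl
      rw [mul_one] at hBC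
      exact hB hBC.symm
    obtain ⟨s, t, rfl⟩ := List.append_of_mem hA
    have h2 : (s ++ B :: C :: t).length ∈ S := by
      refine ⟨s ++ B :: C :: t, ?_, ?_, rfl⟩
      · intro D hD
        rw [List.mem_append, List.mem_cons, List.mem_cons] at hD
        rcases hD with hD | rfl | rfl | hD
        · exact hl D (by simp [hD])
        · exact hB1
        · exact hC1
        · exact hl D (by simp [hD])
      · rw [← hp, List.prod_append, List.prod_append, List.prod_cons, List.prod_cons,
          List.prod_cons, hBC, mul_assoc]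
    have h3 := le_csSup hSb h2
    rw [← hlen] at h3
    simp only [List.length_append, List.length_cons] at h3
    omega

/-- closure of `F` under extensions by elementary abelian `p`-groups of members of order at
most `m` -/
def ExtP (F : Formation) (p m : ℕ) : Prop :=
  ∀ (X : Type) [Group X] [Finite X], F.Mem X → Nat.card X ≤ m →
    ∀ (K : Type) [Group K] [Finite K] (f : K →* X), Function.Surjective f →
      (∀ x ∈ f.ker, x ^ p = 1) → (∀ x ∈ f.ker, ∀ y ∈ f.ker, x * y = y * x) → F.Mem K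

theorem ExtP.mono {F : Formation} {p m m' : ℕ} (h : ExtP F p m') (hm : m ≤ m') : ExtP F p m :=
  fun X _ _ hX hc K _ _ f hf h1 h2 => h X hX (hc.trans hm) K f hf h1 h2

theorem extP_of_long {e : ℕ} (he : 0 < e) (F : Formation) (hF : NilPow e F) (m : ℕ)
    (l : List Formation) (hl : ∀ A ∈ l, A ≠ 1) (hprod : l.prod = F)
    (hlen : m + e + 2 ≤ l.length) : ∃ p : ℕ, p.Prime ∧ ExtP F p m := by
  -- split the list
  have h1 : l.take (m + 1) ++ l.drop (m + 1) = l := List.take_append_drop _ _
  have hl1 : (l.take (m + 1)).length = m + 1 := by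
    rw [List.length_take]; omega
  have hl2 : e + 1 ≤ (l.drop (m + 1)).length := by
    rw [List.length_drop]; omega
  obtain ⟨A, l₁, hA⟩ : ∃ A l₁, l.take (m + 1) = A :: l₁ := by
    cases h : l.take (m + 1) with
    | nil => rw [h] at hl1; simp at hl1
    | cons A l₁ => exact ⟨A, l₁, rfl⟩
  obtain ⟨A', l₂, hA'⟩ : ∃ A' l₂, l.drop (m + 1) = A' :: l₂ := by
    cases h : l.drop (m + 1) with
    | nil => rw [h] at hl2; simp at hl2
    | cons A l₁ => exact ⟨A, l₁, rfl⟩
  have hl₁len : l₁.length = m := by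
    rw [hA, List.length_cons] at hl1; omega
  have hl₂len : e ≤ l₂.length := by
    rw [hA', List.length_cons] at hl2; omega
  rw [hA, hA'] at h1
  have hmem : ∀ B, B ∈ A :: l₁ ∨ B ∈ A' :: l₂ → B ≠ 1 := by
    intro B hB
    apply hl
    rw [← h1, List.mem_append]
    exact hB
  obtain ⟨p, hp, hps⟩ := splitting he A' l₂ (hmem A' (Or.inr List.mem_cons_self))
    (fun B hB => hmem B (Or.inr (List.mem_cons_of_mem _ hB)))
    ((Nat.lt_two_pow_self (n := e)).trans_le (Nat.pow_le_pow_right (by norm_num) (by omega)))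
    l₁ A (fun B hB => hmem B (Or.inl hB)) (by rw [h1, hprod]; exact hF)
  refine ⟨p, hp, ?_⟩
  have : Fact p.Prime := ⟨hp⟩
  intro X _ _ hX hcard K _ _ f hf hpow hcomm
  have hX' : ((A :: l₁) ++ A' :: l₂).prod.Mem X := by rw [h1, hprod]; exact hX
  have h2 := descent' (A :: l₁) (A' :: l₂) hps X hX' (by rw [List.length_cons, hl₁len]; omega)
  rw [List.tail_cons] at h2
  have h3 : (l₁ ++ A' :: l₂).prod.residual K ≤ f.ker :=
    (Formation.residual_le_ker_iff _ f hf).2 h2
  have h4 : A.Mem ((l₁ ++ A' :: l₂).prod.residual K) := by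
    refine mem_of_elementary (p := p) A (hps A List.mem_cons_self).mem_Zp _ ?_ ?_
    · intro x y
      apply Subtype.ext
      exact hcomm x (h3 x.2) y (h3 y.2)
    · intro x
      apply Subtype.ext
      exact hpow x (h3 x.2)
  have h5 : (A * (l₁ ++ A' :: l₂).prod).Mem K := h4
  rw [← List.prod_cons, ← List.cons_append, h1, hprod] at h5
  exact h5

theorem wreath_of_extP {F : Formation} {p m : ℕ} [hp : Fact p.Prime] (h : ExtP F p m)
    (X : Type) [Group X] [Finite X] (hX : F.Mem X) (hm : Nat.card X ≤ m) :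
    F.Mem (RegularWreathProduct (Zp p) X) := by
  refine h X hX hm _ (rightHom : RegularWreathProduct (Zp p) X →* X) rightHom_surj ?_ ?_
  · intro x hx
    have hx' : x.right = 1 := hx
    have key : ∀ n : ℕ, (x ^ n).right = 1 ∧ ∀ u, (x ^ n).left u = (x.left u) ^ n := by
      intro n
      induction n with
      | zero => simp
      | succ n ih =>
        constructor
        · rw [pow_succ, RegularWreathProduct.mul_right, ih.1, hx', one_mul]
        · intro u
          rw [pow_succ]
          simp only [RegularWreathProduct.mul_left, Pi.mul_apply, ih.1, ih.2 u, inv_one, one_mul]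
          rw [pow_succ]
    apply ext_of_coord _ (key p).1
    intro u
    rw [(key p).2 u]
    have h1 := pow_card_eq_one' (x := x.left u)
    rwa [card_Zp] at h1
  · intro x hx y hy
    have hx' : x.right = 1 := hx
    have hy' : y.right = 1 := hy
    apply RegularWreathProduct.ext
    · funext u
      simp only [RegularWreathProduct.mul_left, Pi.mul_apply, hx', hy', inv_one, one_mul]
      exact mul_comm _ _
    · simp [hx', hy']

/-- a uniform prime -/
theorem exists_uniform_prime {e : ℕ} (he : 0 < e) (F : Formation) (hF : NilPow e F)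
    (h : ¬ Bdd F) : ∃ p : ℕ, p.Prime ∧ ∀ m, ExtP F p m := by
  have h0 : ∀ m, ∃ p : ℕ, p.Prime ∧ ExtP F p m := by
    intro m
    unfold Bdd at h
    push Not at h
    obtain ⟨l, hl, hp, hlen⟩ := h (m + e + 2)
    exact extP_of_long he F hF m l hl hp hlen.le
  by_contra hc
  push Not at hc
  have h1 : ∀ q : ℕ, q.Prime → ∀ m, ∃ p : ℕ, p.Prime ∧ p ≠ q ∧ ExtP F p m := by
    intro q hq m
    obtain ⟨mq, hmq⟩ := hc q hq
    obtain ⟨p, hp, hE⟩ := h0 (max m mq)
    refine ⟨p, hp, ?_, hE.mono (le_max_left _ _)⟩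
    rintro rfl
    exact hmq (hE.mono (le_max_right _ _))
  have h2 : ∀ k : ℕ, ∃ (q : ℕ) (_ : Fact q.Prime) (Y : Type) (_ : Group Y) (_ : Finite Y),
      F.Mem (RegularWreathProduct (Zp q) Y) ∧ ∃ y : Y, 2 ^ k ≤ orderOf y := by
    intro k
    induction k with
    | zero =>
      obtain ⟨p, hp, hE⟩ := h0 1
      have : Fact p.Prime := ⟨hp⟩
      refine ⟨p, ⟨hp⟩, PUnit, inferInstance, inferInstance, ?_, 1, ?_⟩
      · exact wreath_of_extP hE PUnit F.mem_of_subsingleton (by simp)
      · rw [pow_zero]; exact orderOf_pos _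
    | succ k ih =>
      obtain ⟨q, hq, Y, iY, fY, hY, y, hy⟩ := ih
      obtain ⟨p, hp, hpq, hE⟩ := h1 q hq.out (Nat.card (RegularWreathProduct (Zp q) Y))
      have : Fact p.Prime := ⟨hp⟩
      have : IsSimpleGroup (Zp q) := isSimpleGroup_of_prime_card (card_Zp q)
      obtain ⟨w, hw⟩ := exists_orderOf_wreath (T := Zp q) y
      refine ⟨p, ⟨hp⟩, RegularWreathProduct (Zp q) Y, inferInstance, inferInstance, ?_, w, ?_⟩
      · exact wreath_of_extP hE _ hY le_rfl
      · rw [pow_succ]; omega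
  obtain ⟨q, hq, Y, iY, fY, hY, y, hy⟩ := h2 e
  obtain ⟨p, hp, hpq, hE⟩ := h1 q hq.out (Nat.card (RegularWreathProduct (Zp q) Y))
  have : Fact p.Prime := ⟨hp⟩
  have hs1 : IsSimpleGroup (Zp q) := isSimpleGroup_of_prime_card (card_Zp q)
  have hs2 : IsSimpleGroup (Zp p) := isSimpleGroup_of_prime_card (card_Zp p)
  have h3 := wreath_of_extP hE _ hY le_rfl
  rcases alt_lemma e (hF _ h3) with h4 | ⟨r, hr, h5, h6⟩
  · obtain ⟨w, hw⟩ := exists_orderOf_wreath (T := Zp q) y
    have h7 := Nat.le_of_dvd he (orderOf_dvd_of_pow_eq_one (h4 w))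
    have h8 := Nat.lt_two_pow_self (n := e)
    omega
  · rw [card_Zp] at h5 h6
    exact hpq (h5.trans h6.symm)

/-- `N_p * F = F` when `F` is closed under elementary abelian extensions -/
theorem pForm_mul_eq (F : Formation) (p : ℕ) (hp : p.Prime) (h : ∀ m, ExtP F p m)
    (G : Type) [Group G] [Finite G] (hG : IsPGroup p (F.residual G)) : F.Mem G := by
  have : Fact p.Prime := ⟨hp⟩
  rw [← F.residual_eq_bot_iff]
  by_contra hne
  set P := F.residual G with hP
  have hPnt : Nontrivial P := (Subgroup.nontrivial_iff_ne_bot P).2 hne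
  obtain ⟨f, hf⟩ := exists_surj_Zp P hG
  let P₁ : Subgroup G :=
    { carrier := {x | ∃ hx : x ∈ P, ∀ φ : P →* Zp p, φ ⟨x, hx⟩ = 1}
      one_mem' := ⟨P.one_mem, fun φ => map_one φ⟩
      mul_mem' := by
        rintro a b ⟨ha, ha'⟩ ⟨hb, hb'⟩
        refine ⟨P.mul_mem ha hb, fun φ => ?_⟩
        have : (⟨a * b, P.mul_mem ha hb⟩ : P) = ⟨a, ha⟩ * ⟨b, hb⟩ := rfl
        rw [this, map_mul, ha', hb', one_mul]
      inv_mem' := by
        rintro a ⟨ha, ha'⟩
        refine ⟨P.inv_mem ha, fun φ => ?_⟩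
        have : (⟨a⁻¹, P.inv_mem ha⟩ : P) = (⟨a, ha⟩)⁻¹ := rfl
        rw [this, map_inv, ha', inv_one] }
  have hP₁le : P₁ ≤ P := fun x hx => hx.1
  have hP₁n : P₁.Normal := by
    refine ⟨?_⟩
    rintro x ⟨hx, hx'⟩ g
    have hconj : ∀ y ∈ P, g * y * g⁻¹ ∈ P := fun y hy => (F.residual_normal G).conj_mem y hy g
    refine ⟨hconj x hx, fun φ => ?_⟩
    let c : P →* P :=
      ((MulAut.conj g).toMonoidHom.comp P.subtype).codRestrict P (fun y => hconj y y.2)
    exact hx' (φ.comp c)
  have hne₁ : ¬ P ≤ P₁ := by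
    intro hle
    obtain ⟨g, hg⟩ := exists_ne (1 : Zp p)
    obtain ⟨x, hx⟩ := hf g
    obtain ⟨hx1, hx2⟩ := hle x.2
    exact hg (hx.symm.trans (hx2 f))
  apply hne₁
  rw [hP, F.residual_le_iff hP₁n]
  refine ⟨hP₁n, ?_⟩
  have hX : F.Mem (G ⧸ P) := F.mem_quot_residual G
  refine h (Nat.card (G ⧸ P)) (G ⧸ P) hX le_rfl (G ⧸ P₁)
    (QuotientGroup.map P₁ P (MonoidHom.id G) hP₁le) ?_ ?_ ?_
  · intro x
    obtain ⟨g, rfl⟩ := QuotientGroup.mk_surjective x
    exact ⟨(g : G ⧸ P₁), rfl⟩
  · intro x hx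
    obtain ⟨g, rfl⟩ := QuotientGroup.mk_surjective x
    have hg : ((g : G) : G ⧸ P) = 1 := hx
    rw [QuotientGroup.eq_one_iff] at hg
    rw [← QuotientGroup.mk_pow, QuotientGroup.eq_one_iff]
    refine ⟨P.pow_mem hg p, fun φ => ?_⟩
    have : (⟨g ^ p, P.pow_mem hg p⟩ : P) = (⟨g, hg⟩ : P) ^ p := rfl
    rw [this, map_pow]
    have h1 := pow_card_eq_one' (x := φ ⟨g, hg⟩)
    rwa [card_Zp] at h1
  · intro x hx y hy
    obtain ⟨g, rfl⟩ := QuotientGroup.mk_surjective x
    obtain ⟨k, rfl⟩ := QuotientGroup.mk_surjective y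
    have hg : ((g : G) : G ⧸ P) = 1 := hx
    have hk : ((k : G) : G ⧸ P) = 1 := hy
    rw [QuotientGroup.eq_one_iff] at hg hk
    rw [← QuotientGroup.mk_mul, ← QuotientGroup.mk_mul, QuotientGroup.eq]
    have hmem : (g * k)⁻¹ * (k * g) ∈ P := P.mul_mem (P.inv_mem (P.mul_mem hg hk)) (P.mul_mem hk hg)
    refine ⟨hmem, fun φ => ?_⟩
    have : (⟨(g * k)⁻¹ * (k * g), hmem⟩ : P)
        = ((⟨g, hg⟩ : P) * ⟨k, hk⟩)⁻¹ * (⟨k, hk⟩ * ⟨g, hg⟩) := rfl
    rw [this, map_mul, map_inv, map_mul, map_mul, mul_comm (φ ⟨k, hk⟩), inv_mul_cancel]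

/-- the formation of groups in `F` of exponent dividing `e` -/
def expPart (F : Formation) (e : ℕ) : Formation :=
  Formation.mk' (fun G _ _ => F.Mem G ∧ ∀ x : G, x ^ e = 1)
    ⟨PUnit, inferInstance, inferInstance, F.mem_of_subsingleton, fun _ => Subsingleton.elim _ _⟩
    (by
      rintro G H _ _ _ _ f hf ⟨h1, h2⟩
      refine ⟨F.mem_of_surjective f hf h1, fun x => ?_⟩
      obtain ⟨g, rfl⟩ := hf x
      rw [← map_pow, h2, map_one])
    (by
      rintro G H₁ H₂ _ _ _ _ _ _ f₁ f₂ hf₁ hf₂ hinj ⟨h1, h2⟩ ⟨h3, h4⟩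
      refine ⟨F.mem_of_two f₁ f₂ hf₁ hf₂ hinj h1 h3, fun x => ?_⟩
      exact hinj _ (by rw [map_pow, h2]) (by rw [map_pow, h4]))

theorem expPart_mem_iff (F : Formation) (e : ℕ) (G : Type) [Group G] [Finite G] :
    (expPart F e).Mem G ↔ F.Mem G ∧ ∀ x : G, x ^ e = 1 := Iff.rfl

/-- **Main theorem on factorizations.** If there is `e > 0` such that in every group of `F` the
subgroup generated by the `e`-th powers is nilpotent, then `F` is a finite product of
non-decomposable formations. -/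
theorem product_of_nilPow {e : ℕ} (he : 0 < e) (F : Formation) (hF : NilPow e F) :
    ∃ l : List Formation, l ≠ [] ∧ (∀ A ∈ l, NonDecomposable A) ∧ l.prod = F := by
  by_cases hb : Bdd F
  · exact product_of_bdd F hb
  obtain ⟨p, hp, hE⟩ := exists_uniform_prime he F hF hb
  have : Fact p.Prime := ⟨hp⟩
  have hs : IsSimpleGroup (Zp p) := isSimpleGroup_of_prime_card (card_Zp p)
  have hFeq : F = pForm p * expPart F e := by
    apply Formation.ext_mem
    intro G _ _
    rw [Formation.mul_mem_iff, pForm_mem_iff]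
    constructor
    · intro hG
      have h1 := wreath_of_extP (hE _) G hG le_rfl
      have hmap := powSub_map e
        (rightHom : RegularWreathProduct (Zp p) G →* _) rightHom_surj
      have h2 : IsPGroup p (powSub e G) := by
        rcases nilp_normal _ inferInstance (hF _ h1) with h3 | ⟨q, hq, h4, h5⟩
        · rw [← hmap, h3, Subgroup.map_bot]
          exact IsPGroup.of_bot
        · rw [card_Zp] at h4
          subst h4
          rw [← hmap]
          exact h5.map _
      refine h2.to_le ?_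
      apply Formation.residual_le
      refine ⟨inferInstance, F.quot _ hG, ?_⟩
      intro x
      obtain ⟨g, rfl⟩ := QuotientGroup.mk_surjective x
      rw [← QuotientGroup.mk_pow, QuotientGroup.eq_one_iff]
      exact Subgroup.subset_closure ⟨g, rfl⟩
    · intro hG
      apply pForm_mul_eq F p hp hE
      refine hG.to_le ?_
      apply Formation.residual_le
      exact ⟨inferInstance, ((expPart F e).mem_quot_residual G).1⟩
  obtain ⟨l, hl, hnd, hlp⟩ := product_of_bdd (expPart F e)
    ⟨e, fun l hl hp => (Nat.lt_two_pow_self.trans_le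
      (length_bound (expPart F e) e he (fun X _ _ hX => hX.2) l hl hp)).le⟩
  refine ⟨pForm p :: l, by simp, ?_, ?_⟩
  · intro A hA
    rw [List.mem_cons] at hA
    rcases hA with rfl | hA
    · exact pForm_nonDecomposable hp
    · exact hnd A hA
  · rw [List.prod_cons, hlp, ← hFeq]

end H355R3
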