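import Mathlib
import Pool.Agent.H355R3.Form5

set_option autoImplicit false

namespace H355R3

/-- A normal subgroup whose image modulo the Frattini subgroup is nilpotent is nilpotent. -/
theorem nilpotent_of_mod_frattini (G : Type) [Group G] [Finite G] (K : Subgroup G)
    (hKn : K.Normal)
    (h : Group.IsNilpotent (K.map (QuotientGroup.mk' (frattini G)))) : Group.IsNilpotent K := by
  have q := (Group.isNilpotent_of_finite_tfae (G := K)).out 0 3
  rw [q]
  intro p hp P
  set Φ := frattini G with hΦ
  set π := QuotientGroup.mk' Φ with hπ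
  set Kb := K.map π with hKb
  have hKbn : Kb.Normal := Subgroup.Normal.map hKn π (QuotientGroup.mk'_surjective Φ)
  let f : K →* Kb := π.subgroupMap K
  have hf : Function.Surjective f := π.subgroupMap_surjective K
  let Pb : Sylow p Kb := P.mapSurjective hf
  have hPbn : (Pb : Subgroup Kb).Normal := by
    have q1 := (Group.isNilpotent_of_finite_tfae (G := Kb)).out 0 3
    exact q1.1 h p hp Pb
  have hPbc : (Pb : Subgroup Kb).Characteristic := Pb.characteristic_of_normal hPbn
  have hPbN : ((Pb : Subgroup Kb).map Kb.subtype).Normal := inferInstance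
  set P' := (P : Subgroup K).map K.subtype with hP'
  set L := ((Pb : Subgroup Kb).map Kb.subtype).comap π with hL
  have hLn : L.Normal := inferInstance
  have hmapeq : (Pb : Subgroup Kb).map Kb.subtype = P'.map π := by
    rw [hP', Subgroup.map_map]
    show (((P : Subgroup K).map f).map Kb.subtype) = _
    rw [Subgroup.map_map]
    rfl
  have hLle : L ≤ P' ⊔ Φ := by
    intro x hx
    have h1 : π x ∈ P'.map π := by
      rw [← hmapeq]; exact hx
    obtain ⟨y, hy, hxy⟩ := h1
    have h2 : y⁻¹ * x ∈ Φ := by
      rw [← QuotientGroup.eq]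
      exact hxy
    have : x = y * (y⁻¹ * x) := by group
    rw [this]
    exact Subgroup.mul_mem_sup hy h2
  have hP'L : P' ≤ L := by
    intro x hx
    rw [hL, Subgroup.mem_comap, hmapeq]
    exact ⟨x, hx, rfl⟩
  have hP'K : P' ≤ K := by
    rintro _ ⟨x, _, rfl⟩
    exact x.2
  set M := K ⊓ L with hM
  have hMn : M.Normal := inferInstance
  have hP'M : P' ≤ M := le_inf hP'K hP'L
  have hP'p : IsPGroup p P' := P.isPGroup'.map _
  have hP'Mp : IsPGroup p (P'.subgroupOf M) := by
    refine hP'p.comap_of_injective M.subtype M.subtype_injective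
  obtain ⟨Q, hQ⟩ := hP'Mp.exists_le_sylow
  have hQeq : (Q : Subgroup M).map M.subtype = P' := by
    apply le_antisymm
    · -- maximality of `P`
      have h1 : IsPGroup p (((Q : Subgroup M).map M.subtype).subgroupOf K) :=
        (Q.isPGroup'.map M.subtype).comap_of_injective K.subtype K.subtype_injective
      have h2 : (P : Subgroup K) ≤ ((Q : Subgroup M).map M.subtype).subgroupOf K := by
        intro x hx
        have hx' : (x : G) ∈ P' := ⟨x, hx, rfl⟩
        refine ⟨⟨x, hP'M hx'⟩, hQ ?_, rfl⟩
        exact hx'
      have h3 := P.is_maximal' h1 h2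
      rintro _ ⟨x, hx, rfl⟩
      have h4 : (⟨x, x.2.1⟩ : K) ∈ ((Q : Subgroup M).map M.subtype).subgroupOf K := ⟨x, hx, rfl⟩
      rw [h3] at h4
      exact ⟨_, h4, rfl⟩
    · intro x hx
      exact ⟨⟨x, hP'M hx⟩, hQ hx, rfl⟩
  have hfr := Sylow.normalizer_sup_eq_top Q
  rw [hQeq] at hfr
  have htop : Subgroup.normalizer (P' : Set G) ⊔ Φ = ⊤ := by
    rw [eq_top_iff, ← hfr]
    apply sup_le le_sup_left
    refine (inf_le_right.trans hLle).trans ?_
    exact sup_le_sup_right Subgroup.le_normalizer _
  have hnorm := frattini_nongenerating htop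
  have hP'n : P'.Normal := Subgroup.normalizer_eq_top_iff.mp hnorm
  exact hP'n.of_map_subtype

theorem nilpotent_of_injective {G H : Type} [Group G] [Group H] (f : G →* H)
    (hf : Function.Injective f) (h : Group.IsNilpotent H) : Group.IsNilpotent G := by
  have h1 : Group.IsNilpotent f.range := inferInstance
  exact Group.nilpotent_of_mulEquiv (MonoidHom.ofInjective hf).symm

/-- the formation of groups in which the subgroup generated by the `e`-th powers is nilpotent -/
def nilPowForm (e : ℕ) : Formation :=
  Formation.mk' (fun G _ _ => Group.IsNilpotent (powSub e G))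
    ⟨PUnit, inferInstance, inferInstance, inferInstance⟩
    (by
      intro G H _ _ _ _ f hf h
      have h1 := powSub_map e f hf
      rw [← h1]
      exact Group.nilpotent_of_surjective (f.subgroupMap (powSub e G))
        (f.subgroupMap_surjective _))
    (by
      intro G H₁ H₂ _ _ _ _ _ _ f₁ f₂ hf₁ hf₂ hinj h1 h2
      have e1 := powSub_map e f₁ hf₁
      have e2 := powSub_map e f₂ hf₂
      let g : powSub e G →* powSub e H₁ × powSub e H₂ :=
        { toFun := fun x => (⟨f₁ x, by rw [← e1]; exact ⟨x, x.2, rfl⟩⟩,
            ⟨f₂ x, by rw [← e2]; exact ⟨x, x.2, rfl⟩⟩)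
          map_one' := by
            apply Prod.ext <;> apply Subtype.ext <;> simp
          map_mul' := by
            intro x y
            apply Prod.ext <;> apply Subtype.ext <;> simp }
      refine nilpotent_of_injective g ?_ inferInstance
      rw [injective_iff_map_eq_one]
      intro x hx
      apply Subtype.ext
      apply hinj
      · exact congrArg Subtype.val (congrArg Prod.fst hx)
      · exact congrArg Subtype.val (congrArg Prod.snd hx))

theorem nilPowForm_saturated (e : ℕ) : (nilPowForm e).Saturated := by
  intro G _ _ h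
  have h1 : Group.IsNilpotent (powSub e (G ⧸ frattini G)) := h
  rw [← powSub_map e (QuotientGroup.mk' (frattini G)) (QuotientGroup.mk'_surjective _)] at h1
  exact nilpotent_of_mod_frattini G (powSub e G) inferInstance h1

theorem main_factorization (M : Formation) (hM : M.OneGeneratedSaturated) (F : Formation)
    (hFM : ∀ (X : Type) [Group X] [Finite X], F.Mem X → M.Mem X) :
    ∃ l : List Formation, l ≠ [] ∧ (∀ A ∈ l, NonDecomposable A) ∧ l.prod = F := by
  obtain ⟨G₀, i₀, f₀, h₀⟩ := hM
  have he : 0 < Monoid.exponent G₀ := Nat.pos_of_ne_zero Monoid.exponent_ne_zero_of_finite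
  apply product_of_nilPow he F
  intro X _ _ hX
  refine (h₀ X).1 (hFM X hX) (nilPowForm (Monoid.exponent G₀)) (nilPowForm_saturated _) ?_
  show Group.IsNilpotent (powSub (Monoid.exponent G₀) G₀)
  have : powSub (Monoid.exponent G₀) G₀ = ⊥ := by
    rw [powSub_eq_bot_iff]
    exact fun x => Monoid.pow_exponent_eq_one x
  rw [this]
  infer_instance

end H355R3
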