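import Mathlib

/-! Countable partitions of an infinite group into sets that are not large.
For a chain of subgroups indexed by a well-ordered set without maximum, each group element gets
a finite list of levels (by successively splitting off coset representatives); a colouring of the
levels with cofinal colour classes induces the partition. -/

set_option autoImplicit false
set_option linter.unusedSectionVars false

namespace H355R3.NonLarge

open Cardinal

section Levels

universe u v

variable {G : Type u} [Group G] {I : Type v} [LinearOrder I] [WellFoundedLT I]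
  (U : I → Subgroup G)

/-- The union of the subgroups of smaller index. -/
def B (i : I) : Subgroup G := ⨆ j : {j : I // j < i}, U j.1

theorem mem_B_of_lt {i j : I} (h : j < i) {x : G} (hx : x ∈ U j) : x ∈ B U i :=
  (le_iSup (fun j : {j : I // j < i} => U j.1) ⟨j, h⟩) hx

theorem of_mem_B (hm : Monotone U) {i : I} {x : G} (hx : x ∈ B U i) :
    x = 1 ∨ ∃ j, j < i ∧ x ∈ U j := by
  classical
  by_cases hne : Nonempty {j : I // j < i}
  · right
    have hd : Directed (· ≤ ·) (fun j : {j : I // j < i} => U j.1) := by
      intro a b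
      rcases le_total a.1 b.1 with h | h
      · exact ⟨b, hm h, le_refl _⟩
      · exact ⟨a, le_refl _, hm h⟩
    obtain ⟨j, hj⟩ := (Subgroup.mem_iSup_of_directed hd).1 hx
    exact ⟨j.1, j.2, hj⟩
  · left
    have he : IsEmpty {j : I // j < i} := not_nonempty_iff.1 hne
    have : B U i = ⊥ := by
      unfold B
      exact iSup_of_empty _
    rw [this] at hx
    exact Subgroup.mem_bot.1 hx

/-- The level of an element: the first subgroup of the chain that contains it. -/
noncomputable def lev (hc : ∀ x, ∃ i, x ∈ U i) (x : G) : I :=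
  (wellFounded_lt (α := I)).min {i | x ∈ U i} (hc x)

variable (hc : ∀ x, ∃ i, x ∈ U i)

theorem lev_mem (x : G) : x ∈ U (lev U hc x) :=
  (wellFounded_lt (α := I)).min_mem {i | x ∈ U i} (hc x)

theorem lev_le {x : G} {i : I} (h : x ∈ U i) : lev U hc x ≤ i :=
  not_lt.1 ((wellFounded_lt (α := I)).not_lt_min {i | x ∈ U i} h)

/-- Chosen representative of the coset of `x`. -/
noncomputable def rep (i : I) (x : G) : G := (Quotient.out (x : G ⧸ B U i))

theorem rep_mul (i : I) (x g : G) (hg : g ∈ B U i) : rep U i (x * g) = rep U i x := by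
  unfold rep
  rw [QuotientGroup.mk_mul_of_mem x hg]

theorem rep_inv_mul_mem (i : I) (x : G) : (rep U i x)⁻¹ * x ∈ B U i := by
  unfold rep
  exact QuotientGroup.eq.1 (QuotientGroup.out_eq' (x : G ⧸ B U i))

/-- The element of lower level left after removing the coset representative. -/
noncomputable def next (x : G) : G := (rep U (lev U hc x) x)⁻¹ * x

open Classical in
/-- A rank used for recursion. -/
noncomputable def rk (x : G) : WithBot I := if x = 1 then ⊥ else ((lev U hc x : I) : WithBot I)

theorem rk_next (hm : Monotone U) {x : G} (hx : x ≠ 1) :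
    rk U hc (next U hc x) < rk U hc x := by
  classical
  have h1 : rk U hc x = ((lev U hc x : I) : WithBot I) := by
    unfold rk
    rw [if_neg hx]
  rw [h1]
  by_cases hn : next U hc x = 1
  · unfold rk
    rw [if_pos hn]
    exact WithBot.bot_lt_coe _
  · unfold rk
    rw [if_neg hn]
    rcases of_mem_B U hm (rep_inv_mul_mem U (lev U hc x) x) with h | ⟨j, hj, h⟩
    · exact absurd h hn
    · exact WithBot.coe_lt_coe.2 (lt_of_le_of_lt (lev_le U hc h) hj)

open Classical in
/-- The list of levels of an element. -/
noncomputable def L (hm : Monotone U) : G → List I :=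
  WellFounded.fix (InvImage.wf (rk U hc) (wellFounded_lt (α := WithBot I)))
    (fun x ih => if h : x = 1 then [] else
      lev U hc x :: ih (next U hc x) (rk_next U hc hm h))

theorem L_ne (hm : Monotone U) {x : G} (h : x ≠ 1) :
    L U hc hm x = lev U hc x :: L U hc hm (next U hc x) := by
  unfold L
  rw [WellFounded.fix_eq, dif_neg h]

theorem residual (hm : Monotone U) (b : I) (x : G) :
    ∃ y ∈ U b, (x ∈ U b → y = x) ∧ ∀ g ∈ U b, y * g ∉ B U b → b ∈ L U hc hm (x * g) := by
  classical
  induction hr : rk U hc x using WellFoundedLT.induction generalizing x with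
  | ind r ih =>
    by_cases hx : x ∈ U b
    · refine ⟨x, hx, fun _ => rfl, ?_⟩
      intro g hg hn
      have hne : x * g ≠ 1 := by
        intro h
        exact hn (h ▸ (B U b).one_mem)
      have hl : lev U hc (x * g) = b := by
        apply le_antisymm (lev_le U hc ((U b).mul_mem hx hg))
        by_contra hlt
        push Not at hlt
        exact hn (mem_B_of_lt U hlt (lev_mem U hc (x * g)))
      rw [L_ne U hc hm hne, hl]
      exact List.mem_cons_self
    · have hx1 : x ≠ 1 := by
        intro h
        exact hx (h ▸ (U b).one_mem)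
      have hlt : b < lev U hc x := by
        by_contra h
        push Not at h
        exact hx (hm h (lev_mem U hc x))
      obtain ⟨y, hy, _, hy2⟩ := ih (rk U hc (next U hc x)) (hr ▸ rk_next U hc hm hx1)
        (next U hc x) rfl
      refine ⟨y, hy, fun h => absurd h hx, ?_⟩
      intro g hg hn
      have h1 := hy2 g hg hn
      have hne : x * g ≠ 1 := by
        intro h
        apply hx
        have : x = g⁻¹ := eq_inv_of_mul_eq_one_left h
        rw [this]
        exact (U b).inv_mem hg
      have hl : lev U hc (x * g) = lev U hc x := by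
        apply le_antisymm
        · exact lev_le U hc ((U _).mul_mem (lev_mem U hc x) (hm hlt.le hg))
        · by_contra hlt2
          push Not at hlt2
          have h3 : x * g ∈ U (max (lev U hc (x * g)) b) :=
            hm (le_max_left _ _) (lev_mem U hc _)
          have h4 : g ∈ U (max (lev U hc (x * g)) b) := hm (le_max_right _ _) hg
          have h5 : x ∈ U (max (lev U hc (x * g)) b) := by
            have := (U (max (lev U hc (x * g)) b)).mul_mem h3 ((U _).inv_mem h4)
            rwa [mul_inv_cancel_right] at this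
          have h6 := lev_le U hc h5
          exact absurd h6 (not_le.2 (max_lt hlt2 hlt))
      have hnx : next U hc (x * g) = next U hc x * g := by
        unfold next
        rw [hl, rep_mul U _ x g (mem_B_of_lt U hlt hg), mul_assoc]
      rw [L_ne U hc hm hne, hnx]
      exact List.mem_cons_of_mem _ h1

end Levels

universe v in
/-- A colouring of a well-ordered set without maximum by the natural numbers, with cofinal
colour classes. -/
theorem exists_cofinal_colouring {I : Type v} [LinearOrder I] [WellFoundedLT I] [NoMaxOrder I] :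
    ∃ f : I → ℕ, ∀ (n : ℕ) (i : I), ∃ j, i ≤ j ∧ f j = n := by
  classical
  let o : I → Ordinal.{v} := fun i => Ordinal.typein (α := I) (· < ·) i
  have hmod : ∀ i : I, ∃ k : ℕ, o i % Ordinal.omega0 = (k : Ordinal.{v}) := fun i =>
    Ordinal.lt_omega0.1 (Ordinal.mod_lt _ Ordinal.omega0_ne_zero)
  choose k hk using hmod
  refine ⟨fun i => (Nat.unpair (k i)).1, ?_⟩
  have hstep : ∀ (i : I) (m : ℕ), ∃ j, i ≤ j ∧ o j = o i + (m : Ordinal.{v}) := by
    intro i m
    induction m with
    | zero => exact ⟨i, le_refl _, by simp⟩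
    | succ m ih =>
      obtain ⟨j, hij, hj⟩ := ih
      obtain ⟨j1, hj1⟩ := exists_gt j
      have h1 : o j < o j1 := (Ordinal.typein_lt_typein (α := I) (· < ·)).2 hj1
      have h2 : o j + 1 < Ordinal.type (α := I) (· < ·) :=
        lt_of_le_of_lt (Order.add_one_le_of_lt h1) (Ordinal.typein_lt_type (α := I) (· < ·) j1)
      obtain ⟨j2, hj2⟩ := Ordinal.typein_surj (α := I) (· < ·) h2
      refine ⟨j2, ?_, ?_⟩
      · have h3 : o j < o j2 := by
          show o j < Ordinal.typein (α := I) (· < ·) j2
          rw [hj2]
          exact Order.lt_add_one_iff.2 (le_refl _)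
        exact hij.trans ((Ordinal.typein_lt_typein (α := I) (· < ·)).1 h3).le
      · show Ordinal.typein (α := I) (· < ·) j2 = _
        rw [hj2, hj, add_assoc]
        push_cast
        rfl
  intro n i
  obtain ⟨j, hij, hj⟩ := hstep i (Nat.pair n (k i) - k i)
  refine ⟨j, hij, ?_⟩
  have hle : k i ≤ Nat.pair n (k i) := Nat.right_le_pair n (k i)
  have h1 : o j = Ordinal.omega0 * (o i / Ordinal.omega0) +
      ((Nat.pair n (k i) : ℕ) : Ordinal.{v}) := by
    rw [hj]
    conv_lhs => rw [← Ordinal.div_add_mod (o i) Ordinal.omega0, hk i]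
    rw [add_assoc, ← Nat.cast_add, Nat.add_sub_cancel' hle]
  have h2 : o j % Ordinal.omega0 = ((Nat.pair n (k i) : ℕ) : Ordinal.{v}) := by
    rw [h1, Ordinal.mul_add_mod_self]
    exact Ordinal.mod_eq_of_lt (Ordinal.natCast_lt_omega0 _)
  have h3 : k j = Nat.pair n (k i) := by
    have := (hk j).symm.trans h2
    exact_mod_cast this
  show (Nat.unpair (k j)).1 = n
  rw [h3, Nat.unpair_pair]

open Pointwise in
/-- The partition property of the question. -/
def Splits (G : Type) [Group G] : Prop :=
  ∃ A : ℕ → Set G, (⋃ n, A n) = Set.univ ∧ Pairwise (fun i j => Disjoint (A i) (A j)) ∧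
    ∀ n, ¬ ∃ F : Set G, Cardinal.mk F < Cardinal.mk G ∧ F * A n = Set.univ

universe v in
open Pointwise in
theorem splits_of_chain {G : Type} {I : Type v} [Group G] [LinearOrder I] [WellFoundedLT I]
    [NoMaxOrder I] (U : I → Subgroup G) (hm : Monotone U) (hc : ∀ x, ∃ i, x ∈ U i)
    (hC : ∀ F : Set G, Cardinal.mk F < Cardinal.mk G → ∃ i0, ∀ i, i0 ≤ i → ∀ y : G → G,
      (∀ x, y x ∈ U i) → (∀ x ∈ U i, y x = x) → ∃ g ∈ U i, ∀ φ ∈ F, y (φ⁻¹) * g ∉ B U i) :
    Splits G := by
  classical
  obtain ⟨f, hf⟩ := exists_cofinal_colouring (I := I)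
  have hcol : ∀ x : G, ∃ n : ℕ, n ∉ ((L U hc hm x).map f).toFinset := fun x =>
    Infinite.exists_notMem_finset _
  choose c hcn using hcol
  refine ⟨fun n => {x | c x = n}, ?_, ?_, ?_⟩
  · ext x
    simp
  · intro i j hij
    rw [Set.disjoint_left]
    intro x hx hx2
    exact hij (hx.symm.trans hx2)
  · rintro n ⟨F, hF, hFA⟩
    obtain ⟨i0, hi0⟩ := hC F hF
    obtain ⟨j, hij, hfj⟩ := hf n i0
    have hres := fun x => residual U hc hm j x
    choose y hy1 hy2 hy3 using hres
    obtain ⟨g, hg, hg2⟩ := hi0 j hij y hy1 (fun x hx => hy2 x hx)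
    have : g ∈ F * {x | c x = n} := by
      rw [hFA]
      trivial
    obtain ⟨φ, hφ, a, ha, hag⟩ := Set.mem_mul.1 this
    have ha2 : a = φ⁻¹ * g := by
      rw [← hag, inv_mul_cancel_left]
    have h1 : j ∈ L U hc hm a := by
      rw [ha2]
      exact hy3 φ⁻¹ g hg (hg2 φ hφ)
    apply hcn a
    rw [List.mem_toFinset, List.mem_map]
    exact ⟨j, h1, hfj.trans (show c a = n from ha).symm⟩

theorem mk_closure_le {G : Type} [Group G] (S : Set G) :
    Cardinal.mk (Subgroup.closure S) ≤ max ℵ₀ (Cardinal.mk S) := by
  rw [FreeGroup.closure_eq_range]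
  have h1 : #((FreeGroup.lift ((↑) : S → G)).range) ≤ #(FreeGroup S) :=
    mk_le_of_surjective (FreeGroup.lift ((↑) : S → G)).rangeRestrict_surjective
  have h2 : #(FreeGroup S) ≤ #(List (S × Bool)) :=
    mk_le_of_surjective (f := fun L => FreeGroup.mk L) (Quot.mk_surjective)
  have h3 : #(List (S × Bool)) ≤ max ℵ₀ #(S × Bool) := mk_list_le_max _
  have h4 : #(S × Bool) ≤ max ℵ₀ #S := by
    rw [mk_prod]
    simp only [lift_uzero, mk_fintype, Fintype.card_bool, Nat.cast_ofNat]
    refine le_trans (mul_le_max _ _) ?_
    refine max_le (max_le (le_max_right _ _) ?_) (le_max_left _ _)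
    exact le_trans (natCast_lt_aleph0 (n := 2)).le (le_max_left _ _)
  exact h1.trans (h2.trans (h3.trans (max_le (le_max_left _ _) h4)))

open Pointwise in
/-- The countable case: singletons. -/
theorem splits_countable {G : Type} [Group G] [Infinite G] [Countable G] : Splits G := by
  classical
  obtain ⟨e⟩ : Nonempty (G ≃ ℕ) := nonempty_equiv_of_countable
  refine ⟨fun n => {e.symm n}, ?_, ?_, ?_⟩
  · ext x
    simp only [Set.mem_iUnion, Set.mem_singleton_iff, Set.mem_univ, iff_true]
    exact ⟨e x, (e.symm_apply_apply x).symm⟩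
  · intro i j hij
    rw [Set.disjoint_left]
    intro x hx hx2
    exact hij (e.symm.injective (hx.symm.trans hx2))
  · rintro n ⟨F, hF, hFA⟩
    have hFfin : F.Finite := by
      rw [← Cardinal.lt_aleph0_iff_set_finite]
      exact lt_of_lt_of_le hF (Cardinal.mk_le_aleph0)
    have : (F * {e.symm n} : Set G).Finite := hFfin.mul (Set.finite_singleton _)
    rw [hFA] at this
    exact Set.infinite_univ this

end H355R3.NonLarge
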