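import Pool.Agent.H355R3.NonLarge

/-! The regular and the singular case of the partition theorem. -/

set_option autoImplicit false
set_option linter.unusedSectionVars false

namespace H355R3.NonLarge

open Cardinal

section Regular

variable {G : Type} [Group G] {J : Type} [LinearOrder J] [WellFoundedLT J] (e : J ≃ G)

/-- The subgroup generated by the elements before `a`. -/
def Sb (a : J) : Subgroup G := Subgroup.closure (e '' Set.Iio a)

/-- The subgroup generated by the elements up to `a`. -/
def Sc (a : J) : Subgroup G := Subgroup.closure (e '' Set.Iic a)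

theorem Sc_mono : Monotone (Sc e) := fun _ _ h =>
  Subgroup.closure_mono (Set.image_mono (Set.Iic_subset_Iic.2 h))

theorem Sc_le_Sb {a b : J} (h : a < b) : Sc e a ≤ Sb e b :=
  Subgroup.closure_mono (Set.image_mono (fun _ hx => lt_of_le_of_lt hx h))

theorem self_mem_Sc (a : J) : e a ∈ Sc e a :=
  Subgroup.subset_closure ⟨a, le_refl a, rfl⟩

theorem splits_regular (e : J ≃ G) (hreg : (Cardinal.mk G).IsRegular) (hu : ℵ₀ < Cardinal.mk G)
    (hJ : ∀ j : J, Cardinal.mk (Set.Iio j) < Cardinal.mk G)
    (hcof : Order.cof J = Cardinal.mk G) : Splits G := by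
  classical
  -- the relevant indices
  let V : Set J := {a | e a ∉ Sb e a}
  have hbound : ∀ S : Set J, Cardinal.mk S < Cardinal.mk G → ∃ j, ∀ s ∈ S, s < j := by
    intro S hS
    by_contra hcon
    push Not at hcon
    have hcf : IsCofinal S := fun j => by
      obtain ⟨s, hs, h⟩ := hcon j
      exact ⟨s, hs, h⟩
    have := Order.cof_le hcf
    rw [hcof] at this
    exact absurd this (not_le.2 hS)
  have hgt : ∀ j : J, ∃ j', j < j' := by
    intro j
    obtain ⟨j', h⟩ := hbound {j} (by
      rw [Cardinal.mk_singleton]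
      exact lt_trans Cardinal.one_lt_aleph0 hu)
    exact ⟨j', h j rfl⟩
  have hSb : ∀ j : J, Cardinal.mk (Sb e j) < Cardinal.mk G := by
    intro j
    refine lt_of_le_of_lt (mk_closure_le _) (max_lt hu ?_)
    exact lt_of_le_of_lt Cardinal.mk_image_le (hJ j)
  have hV : ∀ j : J, ∃ a ∈ V, j ≤ a := by
    intro j
    by_contra hcon
    push Not at hcon
    have hall : ∀ a : J, e a ∈ Sb e j := by
      intro a
      induction a using WellFoundedLT.induction with
      | ind a ih =>
        by_cases haj : a < j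
        · exact Subgroup.subset_closure ⟨a, haj, rfl⟩
        · push Not at haj
          have h1 : a ∉ V := fun h => absurd (hcon a h) (not_lt.2 haj)
          have h2 : e a ∈ Sb e a := by
            by_contra h
            exact h1 h
          have h3 : Sb e a ≤ Sb e j := by
            unfold Sb
            rw [Subgroup.closure_le]
            rintro _ ⟨b, hb, rfl⟩
            exact ih b hb
          exact h3 h2
    have htop : Sb e j = ⊤ := by
      rw [eq_top_iff]
      intro x _
      have := hall (e.symm x)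
      rwa [e.apply_symm_apply] at this
    have h4 := hSb j
    rw [htop] at h4
    have h5 : Cardinal.mk (⊤ : Subgroup G) = Cardinal.mk G := Subgroup.topEquiv.toEquiv.cardinal_eq
    rw [h5] at h4
    exact lt_irrefl _ h4
  have hno : NoMaxOrder V := ⟨by
    rintro ⟨a, ha⟩
    obtain ⟨j, hj⟩ := hgt a
    obtain ⟨b, hb, hjb⟩ := hV j
    exact ⟨⟨b, hb⟩, show a < b from lt_of_lt_of_le hj hjb⟩⟩
  have hm : Monotone (fun a : V => Sc e a.1) := fun a b h => Sc_mono e h
  have hBS : ∀ a : V, B (fun a : V => Sc e a.1) a ≤ Sb e a.1 := by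
    intro a
    unfold B
    exact iSup_le fun b => Sc_le_Sb e b.2
  refine splits_of_chain (I := V) (fun a => Sc e a.1) hm ?_ ?_
  · intro x
    obtain ⟨a, ha, hxa⟩ := hV (e.symm x)
    refine ⟨⟨a, ha⟩, ?_⟩
    have := Sc_mono e hxa (self_mem_Sc e (e.symm x))
    rwa [e.apply_symm_apply] at this
  · intro F hF
    obtain ⟨j, hj⟩ := hbound ((fun x => e.symm (x⁻¹)) '' F)
      (lt_of_le_of_lt Cardinal.mk_image_le hF)
    obtain ⟨a0, ha0, hja0⟩ := hV j
    refine ⟨⟨a0, ha0⟩, ?_⟩
    intro a ha y _ hy2
    refine ⟨e a.1, self_mem_Sc e a.1, ?_⟩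
    intro φ hφ hmem
    have h1 : φ⁻¹ ∈ Sb e a.1 := by
      have h2 : e.symm (φ⁻¹) < a.1 :=
        lt_of_lt_of_le (hj _ ⟨φ, hφ, rfl⟩) (hja0.trans ha)
      exact Subgroup.subset_closure ⟨e.symm (φ⁻¹), h2, e.apply_symm_apply _⟩
    have h3 : φ⁻¹ ∈ Sc e a.1 := by
      have h4 : Sb e a.1 ≤ Sc e a.1 :=
        Subgroup.closure_mono (Set.image_mono (fun _ hx => le_of_lt hx))
      exact h4 h1
    rw [hy2 _ h3] at hmem
    have h5 := (Subgroup.mul_mem_cancel_left _ h1).1 (hBS a hmem)
    exact a.2 h5

end Regular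

section Limit

variable {G : Type} [Group G] {J : Type} [LinearOrder J] [WellFoundedLT J] (e : J ≃ G)

/-- Indices whose rank is below an ordinal. -/
def seg (J : Type) [LinearOrder J] [WellFoundedLT J] (o : Ordinal.{0}) : Set J :=
  {j | Ordinal.typein (α := J) (· < ·) j < o}

theorem mk_seg (o : Ordinal.{0}) (ho : o ≤ Ordinal.type (α := J) (· < ·)) :
    Cardinal.mk (seg J o) = o.card := by
  have hinj : Set.InjOn (Ordinal.typein (α := J) (· < ·)) (seg J o) :=
    fun a _ b _ h => Ordinal.typein_injective (α := J) (· < ·) h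
  have h1 := Cardinal.mk_image_eq_of_injOn_lift _ _ hinj
  have h2 : (Ordinal.typein (α := J) (· < ·)) '' (seg J o) = Set.Iio o := by
    ext p
    constructor
    · rintro ⟨j, hj, rfl⟩
      exact hj
    · intro hp
      obtain ⟨j, hj⟩ := Ordinal.typein_surj (α := J) (· < ·) (lt_of_lt_of_le hp ho)
      refine ⟨j, ?_, hj⟩
      show Ordinal.typein (α := J) (· < ·) j < o
      rw [hj]
      exact hp
  rw [h2, Cardinal.mk_Iio_ordinal] at h1
  have h3 : Cardinal.lift.{1} (Cardinal.mk (seg J o)) = Cardinal.lift.{1} o.card := by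
    rw [← h1]
    simp
  exact Cardinal.lift_injective h3

theorem splits_limit (e : J ≃ G) (hnreg : ¬ (Cardinal.mk G).IsRegular) (hu : ℵ₀ < Cardinal.mk G)
    (htype : Ordinal.type (α := J) (· < ·) = (Cardinal.mk G).ord) : Splits G := by
  classical
  have hsucc : ∀ c : Cardinal.{0}, ℵ₀ ≤ c → c < Cardinal.mk G → Order.succ c < Cardinal.mk G := by
    intro c hc hcG
    rcases lt_or_eq_of_le (Order.succ_le_of_lt hcG) with h | h
    · exact h
    · exact absurd (h ▸ Cardinal.isRegular_succ hc) hnreg
  let I : Type 1 := {c : Cardinal.{0} // ℵ₀ ≤ c ∧ c < Cardinal.mk G}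
  have hno : NoMaxOrder I := ⟨by
    rintro ⟨c, hc1, hc2⟩
    exact ⟨⟨Order.succ c, hc1.trans (Order.le_succ c), hsucc c hc1 hc2⟩, Order.lt_succ c⟩⟩
  let V : Cardinal.{0} → Subgroup G := fun c => Subgroup.closure (e '' seg J c.ord)
  have hVm : Monotone V := fun c d h => Subgroup.closure_mono
    (Set.image_mono (fun j (hj : Ordinal.typein (α := J) (· < ·) j < c.ord) =>
      show Ordinal.typein (α := J) (· < ·) j < d.ord from
        lt_of_lt_of_le hj (Cardinal.ord_le_ord.2 h)))
  have hcardseg : ∀ c : Cardinal.{0}, c ≤ Cardinal.mk G → Cardinal.mk (seg J c.ord) = c := by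
    intro c hc
    rw [mk_seg c.ord (htype ▸ Cardinal.ord_le_ord.2 hc), Cardinal.card_ord]
  have hVle : ∀ c : Cardinal.{0}, ℵ₀ ≤ c → c ≤ Cardinal.mk G → Cardinal.mk (V c) ≤ c := by
    intro c hc hcG
    refine (mk_closure_le _).trans (max_le hc ?_)
    exact Cardinal.mk_image_le.trans (hcardseg c hcG).le
  have hVge : ∀ c : Cardinal.{0}, c ≤ Cardinal.mk G → c ≤ Cardinal.mk (V c) := by
    intro c hcG
    have h1 : Cardinal.mk (e '' seg J c.ord) = c := by
      rw [Cardinal.mk_image_eq e.injective, hcardseg c hcG]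
    calc c = Cardinal.mk (e '' seg J c.ord) := h1.symm
      _ ≤ Cardinal.mk (V c) := Cardinal.mk_le_mk_of_subset Subgroup.subset_closure
  let U : I → Subgroup G := fun c => V (Order.succ c.1)
  have hm : Monotone U := fun c d h => hVm (Order.succ_le_succ h)
  have hBV : ∀ c : I, B U c ≤ V c.1 := by
    intro c
    unfold B
    exact iSup_le fun b => hVm (Order.succ_le_of_lt b.2)
  refine splits_of_chain (I := I) U hm ?_ ?_
  · intro x
    have h1 : (Ordinal.typein (α := J) (· < ·) (e.symm x)).card < Cardinal.mk G := by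
      rw [← Cardinal.lt_ord, ← htype]
      exact Ordinal.typein_lt_type (α := J) (· < ·) _
    refine ⟨⟨max ℵ₀ (Ordinal.typein (α := J) (· < ·) (e.symm x)).card, le_max_left _ _,
      max_lt hu h1⟩, ?_⟩
    apply Subgroup.subset_closure
    refine ⟨e.symm x, ?_, e.apply_symm_apply x⟩
    show Ordinal.typein (α := J) (· < ·) (e.symm x) < _
    rw [Cardinal.lt_ord]
    exact lt_of_le_of_lt (le_max_right _ _) (Order.lt_succ _)
  · intro F hF
    refine ⟨⟨max ℵ₀ (Cardinal.mk F), le_max_left _ _, max_lt hu hF⟩, ?_⟩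
    intro c hc y _ _
    by_contra hcon
    push Not at hcon
    have hFc : Cardinal.mk F ≤ c.1 := le_trans (le_max_right _ _) hc
    choose p hp1 hp2 using fun g : U c => hcon g.1 g.2
    have hinj : Function.Injective
        (fun g : U c => ((⟨p g, hp1 g⟩ : F), (⟨y ((p g)⁻¹) * g.1, hp2 g⟩ : B U c))) := by
      intro g g' h
      have h1 : p g = p g' := congrArg (fun z => z.1.1) h
      have h2 : y ((p g)⁻¹) * g.1 = y ((p g')⁻¹) * g'.1 := congrArg (fun z => z.2.1) h
      rw [h1] at h2
      exact Subtype.ext (mul_left_cancel h2)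
    have h1 := Cardinal.mk_le_of_injective hinj
    rw [Cardinal.mk_prod, Cardinal.lift_id, Cardinal.lift_id] at h1
    have h2 : Cardinal.mk (B U c) ≤ c.1 :=
      le_trans (Cardinal.mk_le_mk_of_subset (hBV c)) (hVle c.1 c.2.1 c.2.2.le)
    have h3 : Cardinal.mk F * Cardinal.mk (B U c) ≤ c.1 := by
      refine le_trans (mul_le_mul' hFc h2) ?_
      rw [Cardinal.mul_eq_self c.2.1]
    have h4 : Order.succ c.1 ≤ Cardinal.mk (U c) :=
      hVge _ (hsucc c.1 c.2.1 c.2.2).le
    exact absurd (h4.trans (h1.trans h3)) (not_le.2 (Order.lt_succ c.1))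

end Limit

theorem splits (G : Type) [Group G] [Infinite G] : Splits G := by
  rcases lt_or_eq_of_le (Cardinal.aleph0_le_mk G) with hu | hu
  · have hmk : Cardinal.mk ((Cardinal.mk G).ord.ToType) = Cardinal.mk G := Cardinal.mk_ord_toType _
    obtain ⟨e⟩ := Cardinal.eq.1 hmk
    by_cases hreg : (Cardinal.mk G).IsRegular
    · refine splits_regular e hreg hu ?_ ?_
      · intro j
        have := Cardinal.mk_Iio_lt j (by simp)
        rwa [hmk] at this
      · rw [Ordinal.cof_toType, hreg.cof_ord]
    · exact splits_limit e hreg hu (Ordinal.type_toType _)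
  · have : Countable G := Cardinal.mk_le_aleph0_iff.1 hu.symm.le
    exact splits_countable

end H355R3.NonLarge
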